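import Pool.Agent.V5helper22.CR.LUPb
import Pool.Agent.Y957.VK.Fin1

/-!
# Project CR, job LUP: upper bound for `L(s, χ)` near `Re s = 1`
-/

set_option autoImplicit false

namespace Pool.Agent.V5helper22.CR

open Finset Filter MeasureTheory Topology
open Pool.Agent.Q236.CR
open Pool.Agent.Y306.VK (abel' term_eq)

variable {q : ℕ} [NeZero q] {χ : DirichletCharacter ℂ q}

/-- all the pieces -/
theorem pieces_le {C B : ℕ} {c D : ℝ}
    (hZ : ∀ (N N' : ℕ) (t κ : ℝ), 2 ≤ N → N ≤ N' → N' ≤ 2 * N → 1 ≤ κ → |t| = (N : ℝ) ^ κ →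
      ‖∑ n ∈ Finset.Ioc N N', χ (n : ZMod q) * nt t n‖ ≤
        q * (Real.exp (C * (1 + κ) ^ C) * (N : ℝ) ^ (1 - c / (1 + κ) ^ 2 : ℝ)))
    (hZ2 : ∀ (N N' : ℕ) (t : ℝ), 1 ≤ N → N ≤ N' → N' ≤ 2 * N → 1 ≤ |t| →
      ‖∑ n ∈ Finset.Ioc N N', χ (n : ZMod q) * nt t n‖ ≤
        q * (D * (√|t| + N / √|t|) * (1 + Real.log N)))
    {L u v w t σ : ℝ} (h : NumB C B c D L u v w) (hq : (q : ℝ) ≤ L ^ B)
    (ht : |t| ≤ 3 * Real.exp L) (ht2 : Real.exp (L / (3 * u)) ≤ |t|) (hσ : 1 - w ≤ σ)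
    {Y N : ℕ} (hY0 : 1 ≤ Y) (hY : L / u ≤ Real.log Y) (hN : Real.log N ≤ 4 * L) (hYN : Y ≤ N)
    (i : ℕ) :
    ‖∑ n ∈ Ioc Y (min (2 ^ i * Y) N), χ (n : ZMod q) * (n : ℂ) ^ (-(⟨σ, t⟩ : ℂ))‖ ≤ i := by
  induction i with
  | zero => simp [min_eq_left hYN]
  | succ i ih =>
    have hYi : Y ≤ 2 ^ i * Y := Nat.le_mul_of_pos_left _ (by positivity)
    have hP1 : Y ≤ min (2 ^ i * Y) N := le_min hYi hYN
    have hP2 : min (2 ^ i * Y) N ≤ min (2 ^ (i + 1) * Y) N := by
      refine min_le_min_right _ ?_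
      rw [pow_succ]
      nlinarith [hYi]
    have hP3 : min (2 ^ (i + 1) * Y) N ≤ 2 * min (2 ^ i * Y) N := by
      rw [pow_succ]
      rcases le_total (2 ^ i * Y) N with h1 | h1
      · rw [min_eq_left h1]
        refine (min_le_left _ _).trans (le_of_eq ?_)
        ring
      · rw [min_eq_right h1]
        exact (min_le_right _ _).trans (by omega)
    rw [← Finset.sum_Ioc_consecutive _ hP1 hP2]
    have hY0R : (0 : ℝ) < Y := by exact_mod_cast (by omega : 0 < Y)
    have hPpos : (0 : ℝ) < ((min (2 ^ i * Y) N : ℕ) : ℝ) := by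
      exact_mod_cast (lt_of_lt_of_le (by omega : 0 < Y) hP1)
    have hl1 : L / u ≤ Real.log ((min (2 ^ i * Y) N : ℕ) : ℝ) :=
      hY.trans (Real.log_le_log hY0R (by exact_mod_cast hP1))
    have hl2 : Real.log ((min (2 ^ i * Y) N : ℕ) : ℝ) ≤ 4 * L :=
      (Real.log_le_log hPpos (by exact_mod_cast min_le_right _ _)).trans hN
    have h1 : ‖∑ n ∈ Ioc (min (2 ^ i * Y) N) (min (2 ^ (i + 1) * Y) N),
        χ (n : ZMod q) * (n : ℂ) ^ (-(⟨σ, t⟩ : ℂ))‖ ≤ 1 := by
      rcases le_total ((min (2 ^ i * Y) N : ℕ) : ℝ) |t| with h2 | h2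
      · exact piece_le1 hZ h hq ht hσ hl1 h2 hP2 hP3
      · exact piece_le2 hZ2 h hq ht2 hσ h2 hl2 hP2 hP3
    push_cast
    exact (norm_add_le _ _).trans (add_le_add ih h1)

/-- the bound under the numerical conditions -/
theorem main_le {C B : ℕ} {c D : ℝ} (hχ1 : χ ≠ 1)
    (hZ : ∀ (N N' : ℕ) (t κ : ℝ), 2 ≤ N → N ≤ N' → N' ≤ 2 * N → 1 ≤ κ → |t| = (N : ℝ) ^ κ →
      ‖∑ n ∈ Finset.Ioc N N', χ (n : ZMod q) * nt t n‖ ≤
        q * (Real.exp (C * (1 + κ) ^ C) * (N : ℝ) ^ (1 - c / (1 + κ) ^ 2 : ℝ)))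
    (hZ2 : ∀ (N N' : ℕ) (t : ℝ), 1 ≤ N → N ≤ N' → N' ≤ 2 * N → 1 ≤ |t| →
      ‖∑ n ∈ Finset.Ioc N N', χ (n : ZMod q) * nt t n‖ ≤
        q * (D * (√|t| + N / √|t|) * (1 + Real.log N)))
    {L u v w t σ : ℝ} (h : NumB C B c D L u v w) (hq : (q : ℝ) ≤ L ^ B)
    (ht : |t| ≤ 3 * Real.exp L) (hσ : 1 - w ≤ σ) (hσ3 : σ ≤ 3) :
    ‖DirichletCharacter.LFunction χ ⟨σ, t⟩‖ ≤ L ^ 2 := by
  have hL := h.L0
  have hu := h.u1
  have hL0 : 0 < L := by linarith
  have hu0 : 0 < u := by linarith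
  have huL := h.u_le
  have hw := h.w0
  have hw2 := h.w_le
  have hσ2 : 1 / 2 ≤ σ := by linarith
  have hq1 : (1 : ℝ) ≤ q := by exact_mod_cast NeZero.one_le
  have hqL : (q : ℝ) ≤ Real.exp (B * Real.log L) := by
    refine hq.trans (le_of_eq ?_)
    rw [← Real.rpow_natCast, Real.rpow_def_of_pos hL0]
    congr 1
    ring
  have hLu : L / u ≤ L := div_le_self hL0.le hu
  have hLu0 : 0 < L / u := by positivity
  have ht0 : 0 ≤ |t| := abs_nonneg t
  set s : ℂ := ⟨σ, t⟩ with hs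
  set X : ℕ := ⌈(q * (|t| + 2)) ^ 2⌉₊ with hXdef
  set Y : ℕ := ⌈Real.exp (L / u)⌉₊ with hYdef
  have hX1 : ((q : ℝ) * (|t| + 2)) ^ 2 ≤ X := Nat.le_ceil _
  have hX2 : (X : ℝ) ≤ (q * (|t| + 3)) ^ 2 := by
    have h1 : (X : ℝ) < ((q : ℝ) * (|t| + 2)) ^ 2 + 1 := Nat.ceil_lt_add_one (by positivity)
    have h2 : ((q : ℝ) * (|t| + 2)) ^ 2 + 1 ≤ (q * (|t| + 3)) ^ 2 := by
      have : (q : ℝ) ^ 2 ≥ 1 := one_le_pow₀ hq1
      nlinarith
    linarith
  have hX0 : (0 : ℝ) < X := lt_of_lt_of_le (by positivity) hX1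
  have hX1' : 1 ≤ X := by
    have : 0 < X := by exact_mod_cast hX0
    exact this
  have hE1 : (1 : ℝ) ≤ Real.exp L := Real.one_le_exp hL0.le
  have hlogX : Real.log X ≤ 4 * L := by
    have h1 : |t| + 3 ≤ Real.exp (L + 2) := by
      rw [Real.exp_add]
      have h2 : (6 : ℝ) ≤ Real.exp 2 := by
        have h5 := Real.exp_one_gt_d9
        have h6 : Real.exp 2 = Real.exp 1 * Real.exp 1 := by
          rw [← Real.exp_add]; norm_num
        rw [h6]
        nlinarith
      nlinarith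
    have h2 : (X : ℝ) ≤ Real.exp (2 * (B * Real.log L + (L + 2))) := by
      refine hX2.trans ?_
      have h3 : (q : ℝ) * (|t| + 3) ≤ Real.exp (B * Real.log L + (L + 2)) := by
        rw [Real.exp_add]
        gcongr
      calc (q * (|t| + 3)) ^ 2 ≤ Real.exp (B * Real.log L + (L + 2)) ^ 2 :=
            pow_le_pow_left₀ (by positivity) h3 2
        _ = _ := by rw [← Real.exp_nat_mul]; norm_num
    have h3 := Real.log_le_log hX0 h2
    rw [Real.log_exp] at h3
    have h4 := h.logL2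
    have h5 := h.L48
    have h6 := h.hv2
    linarith
  have hY1 : Real.exp (L / u) ≤ Y := Nat.le_ceil _
  have hY2 : (Y : ℝ) ≤ Real.exp (L / u + 1) := by
    have h1 : (Y : ℝ) < Real.exp (L / u) + 1 := Nat.ceil_lt_add_one (Real.exp_pos _).le
    have h2 : (1 : ℝ) ≤ Real.exp (L / u) := Real.one_le_exp hLu0.le
    have h3 := Real.exp_one_gt_d9
    rw [Real.exp_add]
    nlinarith
  have hY0 : (0 : ℝ) < Y := lt_of_lt_of_le (Real.exp_pos _) hY1
  have hY1' : 1 ≤ Y := by
    have : 0 < Y := by exact_mod_cast hY0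
    exact this
  have hlogY : L / u ≤ Real.log Y := by
    rw [← Real.log_exp (L / u)]
    exact Real.log_le_log (Real.exp_pos _) hY1
  have hlogY2 : Real.log Y ≤ L / u + 1 := by
    rw [← Real.log_exp (L / u + 1)]
    exact Real.log_le_log hY0 hY2
  -- the powers
  have hpow : ∀ n : ℕ, 1 ≤ n → (n : ℝ) ^ (1 - σ) ≤ Real.exp (w * Real.log n) := by
    intro n hn
    have hn0 : (0 : ℝ) < n := by exact_mod_cast (by omega : 0 < n)
    have hn1 : (1 : ℝ) ≤ n := by exact_mod_cast hn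
    rw [Real.rpow_def_of_pos hn0]
    refine Real.exp_le_exp.2 ?_
    rw [mul_comm w]
    exact mul_le_mul_of_nonneg_left (by linarith) (Real.log_nonneg hn1)
  -- the first part of the sum
  have hfirst : ∀ Z : ℕ, Z ≤ Y →
      ‖∑ n ∈ Ioc 0 Z, χ (n : ZMod q) * (n : ℂ) ^ (-s)‖ ≤ 8 * (2 + L) := by
    intro Z hZY
    have h1 : ∀ n ∈ Ioc 0 Z, ‖χ (n : ZMod q) * (n : ℂ) ^ (-s)‖ ≤ 8 * (1 / (n : ℝ)) := by
      intro n hn
      rw [Finset.mem_Ioc] at hn
      have hn0 : (0 : ℝ) < n := by exact_mod_cast hn.1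
      rw [norm_mul, Complex.norm_natCast_cpow_of_pos hn.1]
      have e1 : (-s).re = (1 - σ) + (-1) := by
        rw [hs, Complex.neg_re]
        ring
      rw [e1, Real.rpow_add hn0, Real.rpow_neg_one, ← one_div]
      have e2 : (n : ℝ) ^ (1 - σ) * (1 / (n : ℝ)) ≤ 8 * (1 / (n : ℝ)) := by
        refine mul_le_mul_of_nonneg_right ?_ (by positivity)
        refine (hpow n hn.1).trans ?_
        have h2 : w * Real.log n ≤ 2 := by
          have h3 : Real.log n ≤ L / u + 1 :=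
            (Real.log_le_log hn0 (by exact_mod_cast hn.2.trans hZY)).trans hlogY2
          have h4 : w * Real.log n ≤ w * (L / u + 1) := mul_le_mul_of_nonneg_left h3 hw.le
          have h5 : w * (L / u + 1) = 1 + w := by
            rw [mul_add, mul_one, mul_div_assoc', h.hw, div_self hu0.ne']
          linarith
        have h3 : Real.exp (w * Real.log n) ≤ Real.exp 2 := Real.exp_le_exp.2 h2
        have h4 : Real.exp 2 ≤ 8 := by
          have h5 := Real.exp_one_lt_d9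
          have h6 : Real.exp 2 = Real.exp 1 * Real.exp 1 := by
            rw [← Real.exp_add]; norm_num
          rw [h6]
          have h7 := Real.exp_pos 1
          nlinarith
        linarith
      calc ‖χ (n : ZMod q)‖ * ((n : ℝ) ^ (1 - σ) * (1 / (n : ℝ))) ≤
            1 * ((n : ℝ) ^ (1 - σ) * (1 / (n : ℝ))) :=
            mul_le_mul_of_nonneg_right (DirichletCharacter.norm_le_one χ _) (by positivity)
        _ ≤ _ := by rw [one_mul]; exact e2
    refine (norm_sum_le_of_le _ h1).trans ?_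
    rw [← Finset.mul_sum]
    refine mul_le_mul_of_nonneg_left ?_ (by norm_num)
    have h2 : ∑ n ∈ Ioc 0 Z, 1 / (n : ℝ) ≤ ∑ n ∈ Ioc 0 Y, 1 / (n : ℝ) := by
      refine Finset.sum_le_sum_of_subset_of_nonneg ?_ (fun _ _ _ => by positivity)
      intro n hn
      rw [Finset.mem_Ioc] at hn ⊢
      omega
    have h3 : ∑ n ∈ Ioc 0 Y, 1 / (n : ℝ) = (harmonic Y : ℝ) := by
      rw [harmonic_eq_sum_Icc]
      push_cast
      refine Finset.sum_congr ?_ fun n _ => one_div _
      ext n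
      simp [Finset.mem_Ioc, Finset.mem_Icc, Nat.one_le_iff_ne_zero, Nat.pos_iff_ne_zero]
    rw [h3] at h2
    have h4 := harmonic_le_one_add_log Y
    linarith
  -- the sum up to `X`
  have hsum : ‖∑ n ∈ Ioc 0 X, χ (n : ZMod q) * (n : ℂ) ^ (-s)‖ ≤ 8 * (2 + L) + (6 * L + 1) := by
    rcases le_total X Y with hXY | hYX
    · have := hfirst X hXY
      linarith
    · rw [← Finset.sum_Ioc_consecutive _ (Nat.zero_le Y) hYX]
      refine (norm_add_le _ _).trans (add_le_add (hfirst Y le_rfl) ?_)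
      -- the height is large
      have ht2 : Real.exp (L / (3 * u)) ≤ |t| := by
        by_contra hcon
        push Not at hcon
        have hEpos := Real.exp_pos (L / (6 * u))
        have e3 : Real.exp (L / (3 * u)) = Real.exp (L / (6 * u)) ^ 2 := by
          rw [← Real.exp_nat_mul]
          congr 1
          push_cast
          field_simp
          norm_num
        have e2 : Real.exp (L / u) = (Real.exp (L / (6 * u)) ^ 3) ^ 2 := by
          rw [← Real.exp_nat_mul, ← Real.exp_nat_mul]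
          congr 1
          push_cast
          field_simp
          norm_num
        have h1 : (Real.exp (L / (6 * u)) ^ 3) ^ 2 ≤ (q * (|t| + 3)) ^ 2 := by
          rw [← e2]
          exact hY1.trans ((by exact_mod_cast hYX : (Y : ℝ) ≤ X).trans hX2)
        have h2 : Real.exp (L / (6 * u)) ^ 3 ≤ q * (|t| + 3) :=
          le_of_sq_le_sq h1 (by positivity)
        rw [e3] at hcon
        have hE : 1 ≤ Real.exp (L / (6 * u)) := Real.one_le_exp (by positivity)
        have h3 : q * (|t| + 3) ≤ q * (4 * Real.exp (L / (6 * u)) ^ 2) := by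
          refine mul_le_mul_of_nonneg_left ?_ (by positivity)
          nlinarith
        have h4 : Real.exp (L / (6 * u)) ≤ q * 4 := by
          have h5 : Real.exp (L / (6 * u)) ^ 2 * Real.exp (L / (6 * u)) ≤
              Real.exp (L / (6 * u)) ^ 2 * (q * 4) := by nlinarith
          exact le_of_mul_le_mul_left h5 (by positivity)
        have h5 : Real.exp (L / (6 * u)) ≤ Real.exp (B * Real.log L + 2) := by
          rw [Real.exp_add]
          have h6 : (4 : ℝ) ≤ Real.exp 2 := by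
            have h5 := Real.exp_one_gt_d9
            have h6 : Real.exp 2 = Real.exp 1 * Real.exp 1 := by
              rw [← Real.exp_add]; norm_num
            rw [h6]
            nlinarith
          refine h4.trans ?_
          gcongr
        have h6 := Real.exp_le_exp.1 h5
        have h7 := h.Lu
        have h8 : L / (6 * u) = (L / u) / 6 := by field_simp
        have h9 := h.logL2
        have h10 := h.hv2
        rw [h8] at h6
        linarith
      have h1 := pieces_le hZ hZ2 h hq ht ht2 hσ hY1' hlogY hlogX hYX (Nat.log 2 X + 1)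
      have h2 : X ≤ 2 ^ (Nat.log 2 X + 1) * Y := by
        have h3 : X < 2 ^ (Nat.log 2 X + 1) := Nat.lt_pow_succ_log_self (by norm_num) X
        exact h3.le.trans (Nat.le_mul_of_pos_right _ (by omega))
      rw [min_eq_right h2] at h1
      refine h1.trans ?_
      push_cast
      have h3 : (2 : ℝ) ^ (Nat.log 2 X) ≤ X := by
        exact_mod_cast Nat.pow_log_le_self 2 (by omega)
      have h4 := Real.log_le_log (by positivity) h3
      rw [Real.log_pow] at h4
      have h5 := Real.log_two_gt_d9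
      have h6 : (0 : ℝ) ≤ (Nat.log 2 X : ℝ) := Nat.cast_nonneg _
      nlinarith
  -- the remaining terms
  have hcut := L_cut hχ1 (s := s) (by show 0 < σ; linarith) hX1'
  have hre : s.re = σ := rfl
  rw [hre] at hcut
  have herr : ((q : ℝ) + 1) * (X : ℝ) ^ (-σ) * (1 + ‖s‖ / σ) ≤ 8 := by
    have h1 : (X : ℝ) ^ (-σ) ≤ 1 / (q * (|t| + 2)) := by
      have hX1R : (1 : ℝ) ≤ X := by exact_mod_cast hX1'
      have h2 : (X : ℝ) ^ (-σ) ≤ (X : ℝ) ^ (-(1 / 2 : ℝ)) :=
        Real.rpow_le_rpow_of_exponent_le hX1R (by linarith)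
      refine h2.trans ?_
      rw [Real.rpow_neg hX0.le, ← Real.sqrt_eq_rpow, ← one_div]
      refine one_div_le_one_div_of_le (by positivity) ?_
      exact Real.le_sqrt_of_sq_le hX1
    have hsn : ‖s‖ ≤ 3 + |t| := by
      have h1 := Complex.norm_le_abs_re_add_abs_im s
      have h2 : |s.re| ≤ 3 := by
        rw [abs_le]
        constructor
        · show -3 ≤ σ
          linarith
        · exact hσ3
      have h3 : |s.im| = |t| := rfl
      linarith
    have h2 : 1 + ‖s‖ / σ ≤ 4 * (|t| + 2) := by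
      have h3 : ‖s‖ / σ ≤ 2 * ‖s‖ := by
        rw [div_le_iff₀ (by linarith)]
        have := norm_nonneg s
        nlinarith
      linarith
    have hs0 : 0 ≤ ‖s‖ / σ := div_nonneg (norm_nonneg _) (by linarith)
    calc ((q : ℝ) + 1) * (X : ℝ) ^ (-σ) * (1 + ‖s‖ / σ) ≤
          (2 * q) * (1 / (q * (|t| + 2))) * (4 * (|t| + 2)) := by
          have : (q : ℝ) + 1 ≤ 2 * q := by linarith
          gcongr
      _ = 8 := by
          field_simp
          norm_num
  have h9 : ‖DirichletCharacter.LFunction χ s‖ ≤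
      ‖∑ n ∈ Ioc 0 X, χ (n : ZMod q) * (n : ℂ) ^ (-s)‖ +
      ‖DirichletCharacter.LFunction χ s - ∑ n ∈ Ioc 0 X, χ (n : ZMod q) * (n : ℂ) ^ (-s)‖ := by
    have := norm_add_le (∑ n ∈ Ioc 0 X, χ (n : ZMod q) * (n : ℂ) ^ (-s))
      (DirichletCharacter.LFunction χ s - ∑ n ∈ Ioc 0 X, χ (n : ZMod q) * (n : ℂ) ^ (-s))
    rw [add_sub_cancel] at this
    exact this
  nlinarith

/-- the logarithm is negligible -/
theorem ev_log (a b : ℝ) {ε : ℝ} (hε : 0 < ε) : ∀ᶠ L : ℝ in atTop, a + b * Real.log L ≤ ε * √L := by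
  have h1 : (fun L : ℝ => Real.log L) =o[atTop] fun L : ℝ => √L := by
    have := isLittleO_log_rpow_atTop (r := 1 / 2) (by norm_num)
    refine this.congr_right fun L => ?_
    rw [Real.sqrt_eq_rpow]
  have h2 : (fun _ : ℝ => a) =o[atTop] fun L : ℝ => √L :=
    Asymptotics.isLittleO_const_left.2 (Or.inr
      (tendsto_norm_atTop_atTop.comp Real.tendsto_sqrt_atTop))
  have h3 := (h2.add (h1.const_mul_left b)).bound hε
  filter_upwards [h3] with L hL
  rw [Real.norm_of_nonneg (Real.sqrt_nonneg L)] at hL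
  exact (le_abs_self _).trans hL

theorem num_ev (C B : ℕ) {c D : ℝ} (hc : 0 < c) (hD : 1 ≤ D) :
    ∀ᶠ L : ℝ in atTop, NumB C B c D L (L ^ (1 / (2 * ((C : ℝ) + 3)))) (√L)
      (L ^ (1 / (2 * ((C : ℝ) + 3)) - 1)) := by
  set δ : ℝ := 1 / (2 * ((C : ℝ) + 3)) with hδ
  have hC0 : (0 : ℝ) ≤ C := Nat.cast_nonneg C
  have hδ0 : 0 < δ := by positivity
  have e1 := ev_log (18 * (1 + C * 3 ^ C)) (18 * B) hc
  have e2 := ev_log (Real.log (10 * D)) (1 + B) (by norm_num : (0 : ℝ) < 1 / 12)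
  filter_upwards [e1, e2, eventually_ge_atTop (2304 : ℝ)] with L h1 h2 hL
  have hL0 : 0 < L := by linarith
  refine ⟨hc, hD, Real.one_le_rpow (by linarith) hδ0.le, ?_, Real.sq_sqrt hL0.le, ?_, ?_, ?_, ?_⟩
  · rw [← Real.rpow_natCast, ← Real.rpow_mul hL0.le, Real.sqrt_eq_rpow]
    congr 1
    rw [hδ]
    push_cast
    field_simp
  · linarith
  · rw [Real.le_sqrt' (by norm_num)]
    linarith
  · rw [← Real.rpow_add_one hL0.ne']
    congr 1
    ring
  · have h3 : Real.log (2 * D * (1 + 4 * L)) ≤ Real.log (10 * D) + Real.log L := by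
      rw [← Real.log_mul (by positivity) hL0.ne']
      refine Real.log_le_log (by positivity) ?_
      nlinarith
    linarith

/-- the principal character -/
theorem triv_le {s : ℂ} (hs1 : 1 ≤ |s.im|) (hs0 : 0 ≤ s.re) :
    ‖DirichletCharacter.LFunction (1 : DirichletCharacter ℂ q) s‖ ≤ q * ‖riemannZeta s‖ := by
  have hs : s ≠ 1 := by
    intro h
    rw [h] at hs1
    simp at hs1
    linarith
  have h1 := DirichletCharacter.LFunctionTrivChar_eq_mul_riemannZeta (N := q) hs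
  have h2 : DirichletCharacter.LFunction (1 : DirichletCharacter ℂ q) s =
      (∏ p ∈ q.primeFactors, (1 - (p : ℂ) ^ (-s))) * riemannZeta s := h1
  rw [h2, norm_mul]
  refine mul_le_mul_of_nonneg_right ?_ (norm_nonneg _)
  rw [norm_prod]
  calc ∏ p ∈ q.primeFactors, ‖1 - (p : ℂ) ^ (-s)‖ ≤ ∏ p ∈ q.primeFactors, (p : ℝ) := by
        refine Finset.prod_le_prod (fun _ _ => norm_nonneg _) fun p hp => ?_
        have hp' := Nat.prime_of_mem_primeFactors hp
        refine (norm_sub_le _ _).trans ?_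
        rw [norm_one, Complex.norm_natCast_cpow_of_pos hp'.pos, Complex.neg_re]
        have h3 : (p : ℝ) ^ (-s.re) ≤ 1 :=
          Real.rpow_le_one_of_one_le_of_nonpos (by exact_mod_cast hp'.one_lt.le) (by linarith)
        have h4 : (2 : ℝ) ≤ p := by exact_mod_cast hp'.two_le
        linarith
    _ = ((∏ p ∈ q.primeFactors, p : ℕ) : ℝ) := by push_cast; rfl
    _ ≤ q := by exact_mod_cast Nat.le_of_dvd (NeZero.pos q) (Nat.prod_primeFactors_dvd q)

/-- LUP -/
theorem lup (h : S_CHR) : S_LUP := by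
  obtain ⟨⟨C, c, hc, hc1, hZ⟩, D, hD, hZ2⟩ := h
  obtain ⟨δ₁, K₁, t₀, hδ₁0, hδ₁1, hK₁, ht₀, hzeta⟩ := Pool.Agent.Y957.VK.zeta_all
  intro B
  set δ₀ : ℝ := 1 / (2 * ((C : ℝ) + 3)) with hδ₀
  have hC0 : (0 : ℝ) ≤ C := Nat.cast_nonneg C
  have hδ₀0 : 0 < δ₀ := by positivity
  -- the compact part
  obtain ⟨K₂, hK₂⟩ : ∃ K₂ : ℝ, ∀ s : ℂ, 1 / 2 ≤ s.re → s.re ≤ 3 → 1 ≤ |s.im| → |s.im| ≤ t₀ →
      ‖riemannZeta s‖ ≤ K₂ := by
    have hK : IsCompact ((Set.Icc (1 / 2 : ℝ) 3) ×ℂ (Set.Icc (-t₀) (-1) ∪ Set.Icc 1 t₀)) :=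
      isCompact_Icc.reProdIm (isCompact_Icc.union isCompact_Icc)
    have hcont : ContinuousOn riemannZeta
        ((Set.Icc (1 / 2 : ℝ) 3) ×ℂ (Set.Icc (-t₀) (-1) ∪ Set.Icc 1 t₀)) := by
      intro s hs
      rw [Complex.mem_reProdIm] at hs
      refine (differentiableAt_riemannZeta ?_).continuousAt.continuousWithinAt
      intro h1
      rw [h1] at hs
      rcases hs.2 with h2 | h2
      · have := h2.2
        simp at this
        linarith
      · have := h2.1
        simp at this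
        linarith
    obtain ⟨K₂, hK₂⟩ := hK.exists_bound_of_continuousOn hcont
    refine ⟨K₂, fun s h1 h2 h3 h4 => hK₂ s ?_⟩
    rw [Complex.mem_reProdIm]
    refine ⟨⟨h1, h2⟩, ?_⟩
    rcases le_total 0 s.im with h5 | h5
    · rw [abs_of_nonneg h5] at h3 h4
      exact Or.inr ⟨h3, h4⟩
    · rw [abs_of_nonpos h5] at h3 h4
      exact Or.inl ⟨by linarith, by linarith⟩
  set δ : ℝ := min δ₀ (δ₁ / 2) with hδ
  have hδ0 : 0 < δ := lt_min hδ₀0 (by linarith)
  have hδ1 : δ < 1 := lt_of_le_of_lt (min_le_right _ _) (by linarith)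
  have hev1 := num_ev C B hc hD
  have hev2 : ∀ᶠ L : ℝ in atTop, 2 ≤ L ^ (δ₁ / 2) :=
    (tendsto_rpow_atTop (by linarith : 0 < δ₁ / 2)).eventually_ge_atTop 2
  obtain ⟨L₀, hL₀⟩ := eventually_atTop.1 (hev1.and (hev2.and
    (eventually_ge_atTop (max 4 (max (2 * K₁) K₂)))))
  refine ⟨δ, (B : ℝ) + 2, max 3 (Real.exp L₀), hδ0, hδ1, ?_, le_max_left _ _, ?_⟩
  · have : (0 : ℝ) ≤ B := Nat.cast_nonneg B
    linarith
  intro T hT q hqz hq χ s hs ht hσ hσ3
  have hT0 : 0 < T := by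
    have := (le_max_left _ _).trans hT
    linarith
  set L : ℝ := Real.log T with hLdef
  have hTL : Real.exp L = T := Real.exp_log hT0
  have hLL : L₀ ≤ L := by
    rw [hLdef, Real.le_log_iff_exp_le hT0]
    exact (le_max_right _ _).trans hT
  obtain ⟨hnum, hL2, hL3⟩ := hL₀ L hLL
  have hL4 : 4 ≤ L := (le_max_left _ _).trans hL3
  have hLK1 : 2 * K₁ ≤ L := ((le_max_left _ _).trans (le_max_right _ _)).trans hL3
  have hLK2 : K₂ ≤ L := ((le_max_right _ _).trans (le_max_right _ _)).trans hL3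
  have hL0 : 0 < L := by linarith
  have hw := hnum.w_le
  have hσw : 1 - L ^ (δ₀ - 1) ≤ s.re := by
    refine le_trans ?_ hσ
    have h1 : L ^ (δ - 1) ≤ L ^ (δ₀ - 1) :=
      Real.rpow_le_rpow_of_exponent_le (by linarith) (by linarith [min_le_left δ₀ (δ₁ / 2)])
    linarith
  have hσ0 : 1 / 2 ≤ s.re := by linarith
  have hB0 : (0 : ℝ) ≤ B := Nat.cast_nonneg B
  by_cases hχ : χ = 1
  · have hs1 : 1 ≤ |s.im| := by
      rcases hs with h1 | h1
      · exact absurd hχ h1
      · exact h1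
    rw [hχ]
    have h1 : ‖riemannZeta s‖ ≤ L ^ 2 := by
      rcases le_total |s.im| t₀ with h2 | h2
      · have h3 := hK₂ s hσ0 hσ3 hs1 h2
        nlinarith
      · have hlt : Real.log |s.im| ≤ 2 * L := by
          have h3 : |s.im| ≤ 3 * Real.exp L := by rw [hTL]; exact ht
          have h4 := Real.log_le_log (by linarith) h3
          rw [Real.log_mul (by norm_num) (Real.exp_pos _).ne', Real.log_exp] at h4
          have h5 : Real.log 3 ≤ 2 := by
            have := Real.log_le_sub_one_of_pos (by norm_num : (0 : ℝ) < 3)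
            linarith
          linarith
        have hlt0 : 0 < Real.log |s.im| := Real.log_pos (by linarith)
        have h3 := hzeta s.re s.im h2 (by
          refine le_trans ?_ hσ
          have h4 : (2 * L) ^ (δ₁ - 1) ≤ (Real.log |s.im|) ^ (δ₁ - 1) :=
            Real.rpow_le_rpow_of_nonpos hlt0 hlt (by linarith)
          have h5 : (2 * L) ^ (δ₁ - 1) = 2 ^ (δ₁ - 1) * L ^ (δ₁ - 1) :=
            Real.mul_rpow (by norm_num) hL0.le
          have h6 : (1 : ℝ) / 2 ≤ 2 ^ (δ₁ - 1) := by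
            have h6 : (2 : ℝ) ^ (-1 : ℝ) ≤ 2 ^ (δ₁ - 1) :=
              Real.rpow_le_rpow_of_exponent_le (by norm_num) (by linarith)
            rw [Real.rpow_neg_one] at h6
            linarith
          have h7 : L ^ (δ - 1) ≤ L ^ (δ₁ / 2 - 1) :=
            Real.rpow_le_rpow_of_exponent_le (by linarith) (by linarith [min_le_right δ₀ (δ₁ / 2)])
          have h8 : L ^ (δ₁ - 1) = L ^ (δ₁ / 2 - 1) * L ^ (δ₁ / 2) := by
            rw [← Real.rpow_add hL0]
            congr 1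
            ring
          have h9 : 0 < L ^ (δ₁ / 2 - 1) := Real.rpow_pos_of_pos hL0 _
          have h10 : L ^ (δ₁ / 2 - 1) ≤ (2 * L) ^ (δ₁ - 1) := by
            rw [h5, h8]
            calc L ^ (δ₁ / 2 - 1) = (1 / 2) * (L ^ (δ₁ / 2 - 1) * 2) := by ring
              _ ≤ 2 ^ (δ₁ - 1) * (L ^ (δ₁ / 2 - 1) * L ^ (δ₁ / 2)) := by gcongr
          linarith) hσ3
        have h4 : (⟨s.re, s.im⟩ : ℂ) = s := rfl
        rw [h4] at h3
        refine h3.trans ?_
        nlinarith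
    refine (triv_le hs1 (by linarith)).trans ?_
    calc (q : ℝ) * ‖riemannZeta s‖ ≤ L ^ B * L ^ 2 := by gcongr
      _ = L ^ ((B : ℝ) + 2) := by
        rw [← pow_add, ← Real.rpow_natCast]
        push_cast
        rfl
  · have h1 := main_le (χ := χ) hχ (hZ q hqz χ) (hZ2 q hqz χ) (t := s.im) (σ := s.re) hnum hq
      (by rw [hTL]; exact ht) hσw hσ3
    have h4 : (⟨s.re, s.im⟩ : ℂ) = s := rfl
    rw [h4] at h1
    refine h1.trans ?_
    rw [← Real.rpow_natCast]
    refine Real.rpow_le_rpow_of_exponent_le (by linarith) ?_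
    push_cast
    linarith

end Pool.Agent.V5helper22.CR
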