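import Pool.Agent.V5helper22.CR.LZFa

/-!
# Project CR, job LZF: zero free region and bound for the inverse of `L(s, χ)`
-/

set_option autoImplicit false

open Complex Filter Topology Set MeasureTheory Metric

namespace Pool.Agent.V5helper22.CR

open Pool.Agent.Q236.CR

variable {q : ℕ} [NeZero q]

/-- no zeros near the line -/
theorem zfree' {w M T K' A Q K0 : ℝ} (hw0 : 0 < w) (hw1 : w ≤ 1 / 32) (hM1 : 1 ≤ M) (hT : 3 ≤ T)
    (h : UBq q w M T) (hK' : 1 ≤ K') (hA : A = 300 * K') (hQ : 1 ≤ Q)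
    (hlam : Real.log (2 * M / (w / (A * Q))) + 1 ≤ K' * Q)
    (hK0 : 0 < K0)
    (hD : ∀ t σ : ℝ, 1 < σ → σ ≤ 2 → -K0 * Pool.Agent.W66.ell t ≤
      (Pool.Agent.W66.DD ⟨σ, t⟩).re)
    (hQ3 : 3 * (K0 * Pool.Agent.W66.ell 0) ≤ Q) (χ : DirichletCharacter ℂ q) {ρ : ℂ}
    (hρ : DirichletCharacter.LFunction χ ρ = 0) (ht1 : 19 / 10 ≤ |ρ.im|) (ht2 : |ρ.im| ≤ T + 1) :
    ρ.re ≤ 1 - w / (5 * (A * Q)) := by
  have hA0 : 0 < A := by rw [hA]; positivity
  have hA1 : 300 ≤ A := by rw [hA]; linarith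
  have hQ0 : 0 < Q := by linarith
  have hAQ : 300 ≤ A * Q := by nlinarith
  generalize ht' : ρ.im = t at *
  set η : ℝ := w / (A * Q) with hη
  have hη0 : 0 < η := by positivity
  have hηw : η ≤ w := div_le_self hw0.le (by linarith)
  by_cases hre : ρ.re < 1 - w / 2
  · have h1 : w / (5 * (A * Q)) ≤ w / 2 :=
      div_le_div_of_nonneg_left hw0.le (by norm_num) (by linarith)
    linarith
  push Not at hre
  have hρ1 : ρ ≠ 1 := by
    intro h0
    rw [h0] at ht'
    simp at ht'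
    rw [← ht'] at ht1
    simp at ht1
    linarith
  have hre1 : ρ.re < 1 := by
    by_contra hcon
    exact L_ne (not_lt.1 hcon) hρ1 hρ
  have h341 := three_four_one' χ (σ := 1 + η) (by linarith) t
  have hcr : ∀ v : ℝ, 1 < (⟨1 + η, v⟩ : ℂ).re := fun v => by
    show 1 < 1 + η
    linarith
  rw [Pool.Agent.W66.LSeries_eq_DD (hcr 0), sub_re] at h341
  have d0 := hD 0 (1 + η) (by linarith) (by linarith)
  have hball : ρ ∈ closedBall (⟨1 + η, t⟩ : ℂ) (2 * w) := by
    rw [mem_closedBall, dist_eq_norm]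
    have e : ρ - ⟨1 + η, t⟩ = ((ρ.re - (1 + η) : ℝ) : ℂ) := by
      apply Complex.ext <;> simp [ht']
    rw [e, Complex.norm_real, Real.norm_eq_abs, abs_le]
    constructor <;> linarith
  have d1 := (loc' hw0 hw1 hM1 hT h χ (τ := t) (η := η) ht1 (by linarith) hη0 hηw).2.1 ρ hball hρ
  have h2t : |2 * t| = 2 * |t| := by rw [abs_mul]; norm_num
  have d2 := (loc' hw0 hw1 hM1 hT h (χ ^ 2) (τ := 2 * t) (η := η) (by rw [h2t]; linarith)
    (by rw [h2t]; linarith) hη0 hηw).1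
  have e0 : (1 / ((⟨1 + η, 0⟩ : ℂ) - 1)).re = 1 / η := by
    have e : (⟨1 + η, 0⟩ : ℂ) - 1 = ((η : ℝ) : ℂ) := by
      apply Complex.ext <;> simp
    rw [e, ← Complex.ofReal_one, ← Complex.ofReal_div, Complex.ofReal_re]
  have e1 : (1 / ((⟨1 + η, t⟩ : ℂ) - ρ)).re = 1 / (1 + η - ρ.re) := by
    have e : (⟨1 + η, t⟩ : ℂ) - ρ = ((1 + η - ρ.re : ℝ) : ℂ) := by
      apply Complex.ext <;> simp [ht']
    rw [e, ← Complex.ofReal_one, ← Complex.ofReal_div, Complex.ofReal_re]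
  rw [e1] at d1
  rw [e0] at h341
  have hE : 12 * (Real.log (2 * M / η) + 1) / w ≤ 12 * K' * (Q / w) := by
    calc 12 * (Real.log (2 * M / η) + 1) / w ≤ 12 * (K' * Q) / w := by gcongr
      _ = 12 * K' * (Q / w) := by ring
  have h3η : 1 / η = A * (Q / w) := by
    rw [hη]
    field_simp
  have hQw : Q ≤ Q / w := by
    rw [le_div_iff₀ hw0]
    nlinarith
  have hQw0 : 0 < Q / w := by positivity
  have hD0 : 0 < 1 + η - ρ.re := by linarith
  have hm : 4 * (1 / (1 + η - ρ.re)) ≤ 13 / 4 * (A * (Q / w)) := by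
    have h5 : (60 * K' + 1) * (Q / w) ≤ 1 / 4 * (A * (Q / w)) := by
      rw [hA]
      nlinarith
    nlinarith
  have hm2 : 4 ≤ 13 / 4 * (A * (Q / w)) * (1 + η - ρ.re) := by
    have h1 : 4 * (1 / (1 + η - ρ.re)) = 4 / (1 + η - ρ.re) := by ring
    rw [h1, div_le_iff₀ hD0] at hm
    exact hm
  have hm3 : 16 / 13 * (w / (A * Q)) ≤ 1 + η - ρ.re := by
    have h1 : 13 / 4 * (A * (Q / w)) * (16 / 13 * (w / (A * Q))) = 4 := by
      field_simp
      norm_num
    have h2 : 0 < 13 / 4 * (A * (Q / w)) := by positivity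
    by_contra hcon
    push Not at hcon
    have := mul_lt_mul_of_pos_left hcon h2
    linarith
  have e4 : w / (5 * (A * Q)) = 1 / 5 * (w / (A * Q)) := by
    field_simp
  rw [e4]
  have hwQ : 0 < w / (A * Q) := by positivity
  linarith

/-- growth along a horizontal segment -/
theorem grow' (χ : DirichletCharacter ℂ q) {σ x1 t G : ℝ} (hσ : σ ≤ x1) (ht : t ≠ 0)
    (h : ∀ x ∈ Icc σ x1, DirichletCharacter.LFunction χ ⟨x, t⟩ ≠ 0 ∧
      ‖deriv (DirichletCharacter.LFunction χ) ⟨x, t⟩ / DirichletCharacter.LFunction χ ⟨x, t⟩‖ ≤ G) :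
    ‖DirichletCharacter.LFunction χ ⟨x1, t⟩‖ ≤
      ‖DirichletCharacter.LFunction χ ⟨σ, t⟩‖ * Real.exp (G * (x1 - σ)) := by
  have hd : ∀ x : ℝ, HasDerivAt (fun x : ℝ => DirichletCharacter.LFunction χ ⟨x, t⟩)
      (deriv (DirichletCharacter.LFunction χ) ⟨x, t⟩) x := by
    intro x
    have hne : (⟨x, t⟩ : ℂ) ≠ 1 := by
      intro he
      apply ht
      have := congrArg Complex.im he
      simpa using this
    have h1 := (DirichletCharacter.differentiableAt_LFunction χ _ (Or.inl hne)).hasDerivAt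
    have h2 : HasDerivAt (fun x : ℝ => (⟨x, t⟩ : ℂ)) 1 x := by
      have h3 : (fun x : ℝ => (⟨x, t⟩ : ℂ)) = fun x : ℝ => (x : ℂ) + t * I := by
        ext x
        apply Complex.ext <;> simp
      rw [h3]
      exact (HasDerivAt.ofReal_comp (hasDerivAt_id x)).add_const _
    have h3 := HasDerivAt.comp x h1 h2
    rw [mul_one] at h3
    exact h3
  have hg := norm_le_gronwallBound_of_norm_deriv_right_le
    (f := fun x : ℝ => DirichletCharacter.LFunction χ ⟨x, t⟩)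
    (f' := fun x => deriv (DirichletCharacter.LFunction χ) ⟨x, t⟩)
    (δ := ‖DirichletCharacter.LFunction χ ⟨σ, t⟩‖) (K := G) (ε := 0)
    (a := σ) (b := x1) (fun x _ => (hd x).continuousAt.continuousWithinAt)
    (fun x _ => (hd x).hasDerivWithinAt) le_rfl (fun x hx => by
      obtain ⟨h1, h2⟩ := h x ⟨hx.1, hx.2.le⟩
      have h3 : deriv (DirichletCharacter.LFunction χ) ⟨x, t⟩ =
          deriv (DirichletCharacter.LFunction χ) ⟨x, t⟩ / DirichletCharacter.LFunction χ ⟨x, t⟩ *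
            DirichletCharacter.LFunction χ ⟨x, t⟩ := by
        field_simp
      rw [add_zero, h3, norm_mul]
      exact mul_le_mul_of_nonneg_right h2 (norm_nonneg _)) x1 ⟨hσ, le_rfl⟩
  rwa [gronwallBound_ε0] at hg

/-- bound at one height -/
theorem bd' {w M T K' Q w1 : ℝ} (hw0 : 0 < w) (hw1 : w ≤ 1 / 32) (hM1 : 1 ≤ M) (hT : 3 ≤ T)
    (h : UBq q w M T) (hK' : 1 ≤ K') (hQ : 1 ≤ Q) (hw10 : 0 < w1) (hw1w : 1500 * w1 ≤ w)
    (hlam : Real.log (2 * M / w1) + 1 ≤ K' * Q) (χ : DirichletCharacter ℂ q)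
    {t : ℝ} (ht1 : 2 ≤ |t|) (ht2 : |t| ≤ T)
    (hz : ∀ ρ : ℂ, DirichletCharacter.LFunction χ ρ = 0 → |ρ.im - t| ≤ 1 / 10 → ρ.re ≤ 1 - w1)
    {σ : ℝ} (hσ : 1 - w1 / 2 ≤ σ) :
    DirichletCharacter.LFunction χ ⟨σ, t⟩ ≠ 0 ∧ ‖(DirichletCharacter.LFunction χ ⟨σ, t⟩)⁻¹‖ ≤
      Real.exp (6 * K' * Q) * (2 / w1) := by
  have hloc := loc' hw0 hw1 hM1 hT h χ (τ := t) (η := w1) (by linarith) (by linarith) hw10
    (by linarith)
  have ht0 : t ≠ 0 := by
    intro h0
    rw [h0, abs_zero] at ht1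
    linarith
  have hQ0 : 0 < Q := by linarith
  have hK0 : 0 < K' := by linarith
  have hright : ∀ x : ℝ, 1 + w1 ≤ x → DirichletCharacter.LFunction χ ⟨x, t⟩ ≠ 0 ∧
      ‖(DirichletCharacter.LFunction χ ⟨x, t⟩)⁻¹‖ ≤ 2 / w1 := by
    intro x hx
    have h1 : 1 < (⟨x, t⟩ : ℂ).re := by
      show 1 < x
      linarith
    have hne : (⟨x, t⟩ : ℂ) ≠ 1 := by
      intro he
      apply ht0
      have := congrArg Complex.im he
      simpa using this
    refine ⟨L_ne h1.le hne, (inv_le' χ h1).trans ?_⟩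
    show 1 + 1 / (x - 1) ≤ 2 / w1
    have h2 : 1 / (x - 1) ≤ 1 / w1 := one_div_le_one_div_of_le hw10 (by linarith)
    have h3 : 1 ≤ 1 / w1 := by
      rw [le_div_iff₀ hw10]
      linarith
    have h4 : 2 / w1 = 1 / w1 + 1 / w1 := by ring
    linarith
  have hexp1 : 1 ≤ Real.exp (6 * K' * Q) := Real.one_le_exp (by positivity)
  have hw1inv : 0 < 2 / w1 := by positivity
  rcases le_or_gt (1 + w1) σ with hc | hc
  · obtain ⟨h1, h2⟩ := hright σ hc
    exact ⟨h1, h2.trans (by nlinarith)⟩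
  have hseg : ∀ x ∈ Icc σ (1 + w1), DirichletCharacter.LFunction χ ⟨x, t⟩ ≠ 0 ∧
      ‖deriv (DirichletCharacter.LFunction χ) ⟨x, t⟩ / DirichletCharacter.LFunction χ ⟨x, t⟩‖ ≤
        4 * K' * Q / w1 := by
    intro x hx
    obtain ⟨h1, h2⟩ := hloc.2.2 ⟨x, t⟩ (by
      rw [mem_closedBall, dist_eq_norm]
      have e : (⟨x, t⟩ : ℂ) - ⟨1 + w1, t⟩ = ((x - (1 + w1) : ℝ) : ℂ) := by
        apply Complex.ext <;> simp
      rw [e, Complex.norm_real, Real.norm_eq_abs, abs_le]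
      constructor <;> linarith [hx.1, hx.2]) (w1 / 2) (by linarith) (by
      intro ρ hρ hρ0
      rw [mem_closedBall, dist_eq_norm] at hρ
      have h2 := (abs_im_le_norm (ρ - ⟨1 + w1, t⟩)).trans hρ
      rw [sub_im] at h2
      have h3 := hz ρ hρ0 (h2.trans (by linarith))
      have h4 := (le_abs_self _).trans (abs_re_le_norm ((⟨x, t⟩ : ℂ) - ρ))
      rw [sub_re] at h4
      have h5 : (⟨x, t⟩ : ℂ).re = x := rfl
      rw [h5] at h4
      linarith [hx.1])
    refine ⟨h1, h2.trans ?_⟩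
    have e1 : Real.log (2 * M / w1) * (3 / 2) / (w1 / 2) ≤ 3 * K' * Q / w1 := by
      have h3 : Real.log (2 * M / w1) ≤ K' * Q := by linarith
      calc Real.log (2 * M / w1) * (3 / 2) / (w1 / 2) ≤ K' * Q * (3 / 2) / (w1 / 2) := by gcongr
        _ = 3 * K' * Q / w1 := by
          field_simp
    have e2 : 12 * (Real.log (2 * M / w1) + 1) / w ≤ K' * Q / w1 := by
      calc 12 * (Real.log (2 * M / w1) + 1) / w ≤ 12 * (K' * Q) / w := by gcongr
        _ ≤ 12 * (K' * Q) / (1500 * w1) := by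
          apply div_le_div_of_nonneg_left (by positivity) (by positivity)
          linarith
        _ = 12 / 1500 * (K' * Q / w1) := by
          field_simp
        _ ≤ K' * Q / w1 := by
          have : 0 < K' * Q / w1 := by positivity
          linarith
    have e3 : 4 * K' * Q / w1 = 3 * K' * Q / w1 + K' * Q / w1 := by ring
    rw [e3]
    exact add_le_add e1 e2
  have hg := grow' χ hc.le ht0 hseg
  obtain ⟨k1, k2⟩ := hright (1 + w1) le_rfl
  have k3 := (hseg σ ⟨le_rfl, hc.le⟩).1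
  refine ⟨k3, ?_⟩
  have hexp2 : Real.exp (4 * K' * Q / w1 * (1 + w1 - σ)) ≤ Real.exp (6 * K' * Q) := by
    apply Real.exp_le_exp.2
    have h1 : 4 * K' * Q / w1 * (1 + w1 - σ) ≤ 4 * K' * Q / w1 * (3 / 2 * w1) :=
      mul_le_mul_of_nonneg_left (by linarith) (by positivity)
    have h2 : 4 * K' * Q / w1 * (3 / 2 * w1) = 6 * K' * Q := by
      field_simp
      norm_num
    linarith
  have k4 : 0 < ‖DirichletCharacter.LFunction χ ⟨σ, t⟩‖ := norm_pos_iff.2 k3
  have k5 : 0 < ‖DirichletCharacter.LFunction χ ⟨1 + w1, t⟩‖ := norm_pos_iff.2 k1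
  have k6 : ‖DirichletCharacter.LFunction χ ⟨1 + w1, t⟩‖ ≤
      ‖DirichletCharacter.LFunction χ ⟨σ, t⟩‖ * Real.exp (6 * K' * Q) :=
    hg.trans (mul_le_mul_of_nonneg_left hexp2 (norm_nonneg _))
  rw [norm_inv] at k2 ⊢
  have k7 : ‖DirichletCharacter.LFunction χ ⟨σ, t⟩‖⁻¹ ≤
      Real.exp (6 * K' * Q) * ‖DirichletCharacter.LFunction χ ⟨1 + w1, t⟩‖⁻¹ := by
    rw [inv_eq_one_div, div_le_iff₀ k4]
    have h1 : Real.exp (6 * K' * Q) * ‖DirichletCharacter.LFunction χ ⟨1 + w1, t⟩‖⁻¹ *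
        ‖DirichletCharacter.LFunction χ ⟨σ, t⟩‖ =
        (‖DirichletCharacter.LFunction χ ⟨σ, t⟩‖ * Real.exp (6 * K' * Q)) /
          ‖DirichletCharacter.LFunction χ ⟨1 + w1, t⟩‖ := by
      ring
    rw [h1, le_div_iff₀ k5, one_mul]
    exact k6
  refine k7.trans ?_
  exact mul_le_mul_of_nonneg_left k2 (by positivity)

/-- LZF -/
theorem lzf (hU : S_LUP) : S_LZF := by
  intro B
  obtain ⟨δ, K, T₀, hδ0, hδ1, hK, hT₀, h⟩ := hU B
  obtain ⟨K0, hK0, hD⟩ := Pool.Agent.W66.D_re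
  have hell := Pool.Agent.W66.one_le_ell 0
  set K' : ℝ := K + 3 with hK'
  set A : ℝ := 300 * K' with hA
  have hK'1 : 4 ≤ K' := by linarith
  have hA1 : 1200 ≤ A := by linarith
  have hlt : Tendsto Real.log atTop atTop := Real.tendsto_log_atTop
  have hlo : ∀ᶠ L : ℝ in atTop, 320 * A * Real.log L ≤ L ^ (δ / 2) := by
    have h1 := (isLittleO_log_rpow_atTop (half_pos hδ0)).bound
      (show (0 : ℝ) < 1 / (320 * A) by positivity)
    filter_upwards [h1, eventually_ge_atTop 1] with L h2 h3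
    rw [Real.norm_of_nonneg (Real.log_nonneg h3),
      Real.norm_of_nonneg (Real.rpow_nonneg (by linarith) _)] at h2
    have h4 : 0 < 320 * A := by positivity
    have h5 := mul_le_mul_of_nonneg_left h2 h4.le
    have h6 : 320 * A * (1 / (320 * A) * L ^ (δ / 2)) = L ^ (δ / 2) := by field_simp
    linarith
  have hev : ∀ᶠ L : ℝ in atTop, 3 ≤ L ∧ 1 ≤ Real.log L ∧
      Real.log (320 * A) + 1 ≤ Real.log L ∧ 3 * (K0 * Pool.Agent.W66.ell 0) ≤ Real.log L ∧
      320 * A * Real.log L ≤ L ^ (δ / 2) := by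
    filter_upwards [eventually_ge_atTop 3, hlt.eventually_ge_atTop 1,
      hlt.eventually_ge_atTop (Real.log (320 * A) + 1),
      hlt.eventually_ge_atTop (3 * (K0 * Pool.Agent.W66.ell 0)),
      hlo] with L h1 h2 h3 h4 h5
    exact ⟨h1, h2, h3, h4, h5⟩
  obtain ⟨L0, hL0⟩ := eventually_atTop.1 hev
  refine ⟨δ / 2, 1 + 6 * K', max T₀ (Real.exp L0), by linarith, by linarith, by linarith,
    hT₀.trans (le_max_left _ _), ?_⟩
  intro T hT q hqz hq χ s ht1 ht2 hσ hσ2
  have hTT₀ : T₀ ≤ T := (le_max_left _ _).trans hT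
  have hT3 : 3 ≤ T := hT₀.trans hTT₀
  have hT0 : 0 < T := by linarith
  set L : ℝ := Real.log T with hLdef
  have hLL : L0 ≤ L := by
    rw [hLdef, Real.le_log_iff_exp_le hT0]
    exact (le_max_right _ _).trans hT
  obtain ⟨hL3, hQ1, hQ2, hQ3, hQ4⟩ := hL0 L hLL
  have hLpos : 0 < L := by linarith
  have hexpQ : Real.exp (Real.log L) = L := Real.exp_log hLpos
  set Q : ℝ := Real.log L with hQdef
  have hQ0 : 0 < Q := by linarith
  set w : ℝ := L ^ (δ - 1) / 32 with hw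
  have hp1 : L ^ (δ - 1) ≤ 1 := Real.rpow_le_one_of_one_le_of_nonpos (by linarith) (by linarith)
  have hp0 : 0 < L ^ (δ - 1) := Real.rpow_pos_of_pos hLpos _
  have hw0 : 0 < w := by positivity
  have hw1 : w ≤ 1 / 32 := by rw [hw]; linarith
  set M : ℝ := L ^ K with hM
  have hM1 : 1 ≤ M := Real.one_le_rpow (by linarith) (by linarith)
  have hU : UBq q w M T := by
    intro χ' s' i1 i2 i3 i4
    refine h T hTT₀ q hqz hq χ' s' (Or.inr i1) i2 ?_ i4
    rw [hw] at i3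
    linarith
  set w1 : ℝ := w / (5 * (A * Q)) with hw1def
  have hAQ : 1200 ≤ A * Q := by nlinarith
  have hw10 : 0 < w1 := by positivity
  have hinv1 : 2 / w1 = 320 * A * Q / L ^ (δ - 1) := by
    rw [hw1def, hw]
    field_simp
    norm_num
  have hlamw : Real.log (2 * M / w1) + 1 ≤ K' * Q := by
    have e : 2 * M / w1 = (320 * A) * M * Q / L ^ (δ - 1) := by
      have : 2 * M / w1 = M * (2 / w1) := by ring
      rw [this, hinv1]
      ring
    rw [e, Real.log_div (by positivity) (by positivity), Real.log_mul (by positivity)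
      (by positivity), Real.log_mul (by positivity) (by positivity), Real.log_rpow hLpos,
      Real.log_rpow hLpos]
    have h1 : Real.log Q ≤ Q := (Real.log_le_sub_one_of_pos hQ0).trans (by linarith)
    rw [← hQdef]
    nlinarith
  have hlam2 : Real.log (2 * M / (w / (A * Q))) + 1 ≤ K' * Q := by
    refine le_trans ?_ hlamw
    have h1 : w1 ≤ w / (A * Q) := by
      rw [hw1def]
      apply div_le_div_of_nonneg_left hw0.le (by positivity) (by linarith)
    have h2 : Real.log (2 * M / (w / (A * Q))) ≤ Real.log (2 * M / w1) := by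
      apply Real.log_le_log (by positivity)
      apply div_le_div_of_nonneg_left (by positivity) hw10 h1
    linarith
  have hz : ∀ ρ : ℂ, DirichletCharacter.LFunction χ ρ = 0 → |ρ.im - s.im| ≤ 1 / 10 →
      ρ.re ≤ 1 - w1 := by
    intro ρ hρ hρt
    have a1 : |s.im| - |ρ.im| ≤ |ρ.im - s.im| := by
      rw [abs_sub_comm]
      exact abs_sub_abs_le_abs_sub _ _
    have a2 : |ρ.im| - |s.im| ≤ |ρ.im - s.im| := abs_sub_abs_le_abs_sub _ _
    exact zfree' hw0 hw1 hM1 hT3 hU (by linarith) hA hQ1 hlam2 hK0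
      (fun t σ i1 i2 => (hD t σ i1 i2).1) hQ3 χ hρ (by linarith) (by linarith)
  have hw15 : 1500 * w1 ≤ w := by
    have h1 : w = w1 * (5 * (A * Q)) := by
      rw [hw1def]
      field_simp
    rw [h1]
    nlinarith
  have hσ' : 1 - w1 / 2 ≤ s.re := by
    have q1 : L ^ (δ / 2 - 1) ≤ w1 / 2 := by
      have q2 : w1 / 2 = L ^ (δ - 1) / (320 * A * Q) := by
        rw [hw1def, hw]
        field_simp
        norm_num
      rw [q2, le_div_iff₀ (by positivity)]
      have q3 : L ^ (δ - 1) = L ^ (δ / 2 - 1) * L ^ (δ / 2) := by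
        rw [← Real.rpow_add (by linarith)]
        congr 1
        ring
      rw [q3]
      exact mul_le_mul_of_nonneg_left hQ4 (Real.rpow_nonneg (by linarith) _)
    linarith
  have hres := bd' hw0 hw1 hM1 hT3 hU (by linarith) hQ1 hw10 hw15 hlamw χ ht1 ht2 hz hσ'
  have hss : (⟨s.re, s.im⟩ : ℂ) = s := rfl
  rw [hss] at hres
  refine ⟨hres.1, hres.2.trans ?_⟩
  have h1 : 2 / w1 ≤ L := by
    rw [hinv1, div_le_iff₀ hp0]
    have h2 : L * L ^ (δ - 1) = L ^ δ := by
      have : L * L ^ (δ - 1) = L ^ (δ - 1) * L := mul_comm _ _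
      rw [this, ← Real.rpow_add_one hLpos.ne']
      congr 1
      ring
    rw [h2]
    exact hQ4.trans (Real.rpow_le_rpow_of_exponent_le (by linarith) (by linarith))
  have h2 : Real.exp (6 * K' * Q) = L ^ (6 * K') := by
    rw [Real.rpow_def_of_pos hLpos, ← hQdef]
    congr 1
    ring
  calc Real.exp (6 * K' * Q) * (2 / w1) ≤ L ^ (6 * K') * L := by rw [h2]; gcongr
    _ = L ^ (1 + 6 * K') := by
      rw [← Real.rpow_add_one hLpos.ne']
      congr 1
      ring

end Pool.Agent.V5helper22.CR
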