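import Pool.Agent.Q236.CR.Stm
import Pool.Agent.Y306.VK.Zeta
import Pool.Agent.H370R2.DirGood

/-!
# Project CR, job LUP, part 1: cutting the series of `L(s, χ)`
-/

set_option autoImplicit false

namespace Pool.Agent.V5helper22.CR

open Finset Filter MeasureTheory
open Pool.Agent.Q236.CR
open Pool.Agent.Y306.VK (abel' term_eq)

variable {q : ℕ} [NeZero q] {χ : DirichletCharacter ℂ q}

/-- the series of `L(s, χ)` cut at `X` -/
theorem L_cut (hχ1 : χ ≠ 1) {s : ℂ} (hs : 0 < s.re) {X : ℕ} (hX : 1 ≤ X) :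
    ‖DirichletCharacter.LFunction χ s - ∑ n ∈ Ioc 0 X, χ (n : ZMod q) * (n : ℂ) ^ (-s)‖ ≤
      (q + 1) * (X : ℝ) ^ (-s.re) * (1 + ‖s‖ / s.re) := by
  have hX0 : (0 : ℝ) < X := by exact_mod_cast (by omega : 0 < X)
  have hX1 : (1 : ℝ) ≤ X := by exact_mod_cast hX
  have hs0 : s ≠ 0 := by
    intro h
    rw [h] at hs
    simp at hs
  set c : ℕ → ℂ := fun n => if n = 0 then 0 else χ (n : ZMod q) with hc
  have hcs : ∀ N : ℕ, ∑ k ∈ Icc 0 N, c k = ∑ k ∈ Icc 1 N, χ (k : ZMod q) := by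
    intro N
    have h1 : Icc 0 N = insert 0 (Icc 1 N) := by
      ext k
      simp only [Finset.mem_Icc, Finset.mem_insert]
      omega
    rw [h1, Finset.sum_insert (by simp)]
    rw [hc]
    simp only [if_true, zero_add]
    refine Finset.sum_congr rfl fun k hk => ?_
    rw [Finset.mem_Icc] at hk
    rw [if_neg (by omega)]
  have hf : ∀ t : ℝ, 0 < t → HasDerivAt (fun t : ℝ => (t : ℂ) ^ (-s)) (-s * (t : ℂ) ^ (-s - 1)) t := by
    intro t ht
    exact hasDerivAt_ofReal_cpow_const (x := t) (r := -s) ht.ne' (neg_ne_zero.2 hs0)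
  have hder : ∀ t : ℝ, 0 < t → deriv (fun t : ℝ => (t : ℂ) ^ (-s)) t = -s * (t : ℂ) ^ (-s - 1) :=
    fun t ht => (hf t ht).deriv
  set A : ℝ → ℂ := fun u => ∑ k ∈ Finset.Icc 1 ⌊u⌋₊, χ (k : ZMod q) with hA
  have hAb : ∀ u, ‖A u‖ ≤ (q : ℝ) + 1 := fun u => H370.DL.norm_sum_Icc_le hχ1 _
  have hAm : Measurable A :=
    (measurable_from_nat (f := fun n : ℕ => ∑ k ∈ Finset.Icc 1 n, χ (k : ZMod q))).comp
      Nat.measurable_floor
  have hint : IntegrableOn (fun u : ℝ => A u * (u : ℂ) ^ (-s - 1)) (Set.Ioi 1) := by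
    have h1 : IntegrableOn (fun u : ℝ => ((q : ℝ) + 1) * u ^ (-s.re - 1)) (Set.Ioi 1) :=
      (integrableOn_Ioi_rpow_of_lt (by linarith) zero_lt_one).const_mul _
    refine Integrable.mono' h1 ?_ ?_
    · refine (hAm.aestronglyMeasurable).mul ?_
      refine ContinuousOn.aestronglyMeasurable ?_ measurableSet_Ioi
      intro u hu
      have hu0 : (0 : ℝ) < u := lt_trans one_pos hu
      exact (Complex.continuousAt_ofReal_cpow_const _ _ (Or.inr hu0.ne')).continuousWithinAt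
    · refine (ae_restrict_iff' measurableSet_Ioi).mpr (Filter.Eventually.of_forall fun u hu => ?_)
      have hu0 : (0 : ℝ) < u := lt_trans one_pos hu
      rw [norm_mul, Complex.norm_cpow_eq_rpow_re_of_pos hu0]
      have : (-s - 1).re = -s.re - 1 := by simp
      rw [this]
      exact mul_le_mul_of_nonneg_right (hAb u) (by positivity)
  have habel := sum_mul_eq_sub_integral_mul₀' (𝕜 := ℂ) (f := fun t : ℝ => (t : ℂ) ^ (-s)) c
    (by simp [hc]) X (fun t ht => (hf t (lt_of_lt_of_le one_pos ht.1)).differentiableAt) (by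
      have h1 : IntegrableOn (fun t : ℝ => -s * (t : ℂ) ^ (-s - 1)) (Set.Icc 1 (X : ℝ)) := by
        refine ContinuousOn.integrableOn_Icc ?_
        intro u hu
        have hu0 : (0 : ℝ) < u := lt_of_lt_of_le one_pos hu.1
        exact ((Complex.continuousAt_ofReal_cpow_const _ _
          (Or.inr hu0.ne')).const_mul _).continuousWithinAt
      exact h1.congr_fun (fun t ht => (hder t (lt_of_lt_of_le one_pos ht.1)).symm)
        measurableSet_Icc)
  have e1 : ∑ k ∈ Icc 0 X, ((k : ℝ) : ℂ) ^ (-s) * c k =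
      ∑ n ∈ Ioc 0 X, χ (n : ZMod q) * (n : ℂ) ^ (-s) := by
    have h1 : Icc 0 X = insert 0 (Ioc 0 X) := by
      ext k
      simp only [Finset.mem_Icc, Finset.mem_insert, Finset.mem_Ioc]
      omega
    rw [h1, Finset.sum_insert (by simp)]
    have h2 : c 0 = 0 := by simp [hc]
    rw [h2, mul_zero, zero_add]
    refine Finset.sum_congr rfl fun k hk => ?_
    rw [Finset.mem_Ioc] at hk
    have h3 : c k = χ (k : ZMod q) := by
      rw [hc]
      simp only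
      rw [if_neg (by omega)]
    rw [h3, mul_comm]
    push_cast
    rfl
  have e2 : ∫ t in Set.Ioc (1 : ℝ) X, deriv (fun t : ℝ => (t : ℂ) ^ (-s)) t *
      ∑ k ∈ Icc 0 ⌊t⌋₊, c k = -s * ∫ u in Set.Ioc (1 : ℝ) X, A u * (u : ℂ) ^ (-s - 1) := by
    rw [← integral_const_mul]
    refine setIntegral_congr_fun measurableSet_Ioc fun t ht => ?_
    rw [hder t (lt_trans one_pos ht.1), hcs]
    ring
  rw [e1, e2, hcs] at habel
  have e3 : ∫ u in Set.Ioi (1 : ℝ), A u * (u : ℂ) ^ (-s - 1) =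
      (∫ u in Set.Ioc (1 : ℝ) X, A u * (u : ℂ) ^ (-s - 1)) +
        ∫ u in Set.Ioi (X : ℝ), A u * (u : ℂ) ^ (-s - 1) := by
    rw [← setIntegral_union (Set.Ioc_disjoint_Ioi le_rfl) measurableSet_Ioi
      (hint.mono_set Set.Ioc_subset_Ioi_self) (hint.mono_set (Set.Ioi_subset_Ioi hX1)),
      Set.Ioc_union_Ioi_eq_Ioi hX1]
  have e4 : DirichletCharacter.LFunction χ s -
      ∑ n ∈ Ioc 0 X, χ (n : ZMod q) * (n : ℂ) ^ (-s) =
      s * (∫ u in Set.Ioi (X : ℝ), A u * (u : ℂ) ^ (-s - 1)) -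
        ((X : ℝ) : ℂ) ^ (-s) * ∑ k ∈ Icc 1 X, χ (k : ZMod q) := by
    rw [habel, H370.DL.L_integral hχ1 hs]
    have h5 : ∫ u in Set.Ioi (1 : ℝ), (∑ k ∈ Finset.Icc 1 ⌊u⌋₊, χ (k : ZMod q)) *
        (u : ℂ) ^ (-s - 1) = ∫ u in Set.Ioi (1 : ℝ), A u * (u : ℂ) ^ (-s - 1) := rfl
    rw [h5, e3]
    ring
  rw [e4]
  have h6 : ‖∫ u in Set.Ioi (X : ℝ), A u * (u : ℂ) ^ (-s - 1)‖ ≤
      ((q : ℝ) + 1) * ((X : ℝ) ^ (-s.re) / s.re) := by
    have h1 : ∫ u in Set.Ioi (X : ℝ), ((q : ℝ) + 1) * u ^ (-s.re - 1) =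
        ((q : ℝ) + 1) * ((X : ℝ) ^ (-s.re) / s.re) := by
      rw [integral_const_mul, integral_Ioi_rpow_of_lt (by linarith) hX0]
      have h2 : -s.re - 1 + 1 = -s.re := by ring
      rw [h2, neg_div_neg_eq]
    rw [← h1]
    refine norm_integral_le_of_norm_le ?_ ?_
    · exact (integrableOn_Ioi_rpow_of_lt (by linarith) hX0).const_mul _
    · refine (ae_restrict_iff' measurableSet_Ioi).mpr (Filter.Eventually.of_forall fun u hu => ?_)
      have hu0 : (0 : ℝ) < u := lt_trans hX0 hu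
      rw [norm_mul, Complex.norm_cpow_eq_rpow_re_of_pos hu0]
      have : (-s - 1).re = -s.re - 1 := by simp
      rw [this]
      exact mul_le_mul_of_nonneg_right (hAb u) (by positivity)
  have h7 : ‖((X : ℝ) : ℂ) ^ (-s) * ∑ k ∈ Icc 1 X, χ (k : ZMod q)‖ ≤
      (X : ℝ) ^ (-s.re) * ((q : ℝ) + 1) := by
    rw [norm_mul, Complex.norm_cpow_eq_rpow_re_of_pos hX0, Complex.neg_re]
    exact mul_le_mul_of_nonneg_left (H370.DL.norm_sum_Icc_le hχ1 _) (by positivity)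
  refine (norm_sub_le _ _).trans ?_
  rw [norm_mul]
  have h8 : ‖s‖ * ‖∫ u in Set.Ioi (X : ℝ), A u * (u : ℂ) ^ (-s - 1)‖ ≤
      ‖s‖ * (((q : ℝ) + 1) * ((X : ℝ) ^ (-s.re) / s.re)) :=
    mul_le_mul_of_nonneg_left h6 (norm_nonneg _)
  calc _ ≤ ‖s‖ * (((q : ℝ) + 1) * ((X : ℝ) ^ (-s.re) / s.re)) + (X : ℝ) ^ (-s.re) * ((q : ℝ) + 1) :=
        add_le_add h8 h7
    _ = _ := by
        field_simp
        ring

end Pool.Agent.V5helper22.CR
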