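import Pool.Agent.V5helper22.CR.LUPa

/-!
# Project CR, job LUP, part 2: dyadic pieces
-/

set_option autoImplicit false

namespace Pool.Agent.V5helper22.CR

open Finset Filter MeasureTheory
open Pool.Agent.Q236.CR
open Pool.Agent.Y306.VK (abel' term_eq)

/-- the numbers -/
structure NumB (C B : ℕ) (c D L u v w : ℝ) : Prop where
  c0 : 0 < c
  D1 : 1 ≤ D
  u1 : 1 ≤ u
  uv : u ^ (C + 3) = v
  v2 : v ^ 2 = L
  hv : 18 * (1 + C * 3 ^ C + B * Real.log L) ≤ c * v
  hv2 : 48 ≤ v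
  hw : w * L = u
  hP : Real.log (2 * D * (1 + 4 * L)) + B * Real.log L ≤ v / 12

namespace NumB

variable {C B : ℕ} {c D L u v w : ℝ}

theorem L48 (h : NumB C B c D L u v w) : 48 * v ≤ L := by
  have h1 := h.v2
  have h2 := h.hv2
  nlinarith

theorem L0 (h : NumB C B c D L u v w) : 2304 ≤ L := by
  have h1 := h.L48
  have h2 := h.hv2
  linarith

theorem uv3 (h : NumB C B c D L u v w) : u ^ 3 ≤ v := by
  rw [← h.uv]
  exact pow_le_pow_right₀ h.u1 (by omega)

theorem uv2 (h : NumB C B c D L u v w) : u ^ 2 ≤ v := by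
  rw [← h.uv]
  exact pow_le_pow_right₀ h.u1 (by omega)

theorem u_le_v (h : NumB C B c D L u v w) : u ≤ v := by
  have h1 : u ^ 1 ≤ u ^ (C + 3) := pow_le_pow_right₀ h.u1 (by omega)
  rw [pow_one, h.uv] at h1
  exact h1

theorem u_le (h : NumB C B c D L u v w) : 48 * u ≤ L := by
  have h1 := h.u_le_v
  have h2 := h.L48
  linarith

theorem w0 (h : NumB C B c D L u v w) : 0 < w := by
  have h1 := h.hw
  have h2 := h.L0
  have h3 := h.u1
  by_contra hcon
  push Not at hcon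
  nlinarith

theorem w_le (h : NumB C B c D L u v w) : w ≤ 1 / 2 := by
  have h1 := h.hw
  have h2 := h.u_le
  have h3 := h.L0
  by_contra hcon
  push Not at hcon
  nlinarith

theorem logL (h : NumB C B c D L u v w) : 0 ≤ B * Real.log L := by
  have h3 := h.L0
  exact mul_nonneg (Nat.cast_nonneg _) (Real.log_nonneg (by linarith))

theorem logL2 (h : NumB C B c D L u v w) : B * Real.log L ≤ v / 12 := by
  have h1 := h.hP
  have h2 : 0 ≤ Real.log (2 * D * (1 + 4 * L)) := by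
    refine Real.log_nonneg ?_
    have h3 := h.D1
    have h4 := h.L0
    nlinarith
  linarith

theorem Lu (h : NumB C B c D L u v w) : v ≤ L / u := by
  have h1 := h.u1
  rw [le_div_iff₀ (by linarith), ← h.v2]
  have h2 := h.u_le_v
  have h3 := h.hv2
  nlinarith

/-- the exponent of a piece -/
theorem piece (h : NumB C B c D L u v w) {κ m : ℝ} (hm : L / u ≤ m) (hκ0 : 0 < κ) (hκ : κ ≤ 2 * u) :
    B * Real.log L + C * (1 + κ) ^ C + m * (w - c / (1 + κ) ^ 2) ≤ 0 := by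
  have hL := h.L0
  have hu := h.u1
  have hc := h.c0
  have hL0 : 0 < L := by linarith
  have hu0 : 0 < u := by linarith
  have hm0 : 0 < m := lt_of_lt_of_le (by positivity) hm
  have h1 : 1 + κ ≤ 3 * u := by linarith
  have h2 : (1 + κ) ^ C ≤ (3 * u) ^ C := pow_le_pow_left₀ (by linarith) h1 C
  have h3 : c / (9 * u ^ 2) ≤ c / (1 + κ) ^ 2 := by
    refine div_le_div_of_nonneg_left hc.le (by positivity) ?_
    have h4 := pow_le_pow_left₀ (by linarith : (0 : ℝ) ≤ 1 + κ) h1 2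
    calc (1 + κ) ^ 2 ≤ (3 * u) ^ 2 := h4
      _ = 9 * u ^ 2 := by ring
  have hv0 : 0 < v := by linarith [h.hv2]
  have hC0 : (0 : ℝ) ≤ (C : ℝ) * 3 ^ C := by positivity
  have hlog := h.logL
  have h5 : w ≤ c / (18 * u ^ 2) := by
    rw [le_div_iff₀ (by positivity)]
    have h6 : w * L * (18 * u ^ 2) ≤ c * L := by
      rw [h.hw]
      have h7 := h.uv3
      have h8 : 18 * v ≤ c * v * v := by
        have h9 := h.hv
        nlinarith
      calc u * (18 * u ^ 2) = 18 * u ^ 3 := by ring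
        _ ≤ 18 * v := by linarith
        _ ≤ c * v * v := h8
        _ = c * L := by rw [← h.v2]; ring
    have h10 : L * (w * (18 * u ^ 2)) ≤ L * c := by linarith
    exact le_of_mul_le_mul_left h10 hL0
  have h6 : m * (w - c / (1 + κ) ^ 2) ≤ -(c * L / (18 * u ^ 3)) := by
    have h7 : w - c / (1 + κ) ^ 2 ≤ -(c / (18 * u ^ 2)) := by
      have e : c / (9 * u ^ 2) = 2 * (c / (18 * u ^ 2)) := by field_simp; ring
      linarith
    have h8 : c * L / (18 * u ^ 3) = (L / u) * (c / (18 * u ^ 2)) := by field_simp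
    have h9 : (L / u) * (c / (18 * u ^ 2)) ≤ m * (c / (18 * u ^ 2)) :=
      mul_le_mul_of_nonneg_right hm (by positivity)
    have h10 : m * (w - c / (1 + κ) ^ 2) ≤ m * (-(c / (18 * u ^ 2))) :=
      mul_le_mul_of_nonneg_left h7 hm0.le
    rw [h8]
    linarith
  have h7 : B * Real.log L + (C : ℝ) * (1 + κ) ^ C ≤ c * L / (18 * u ^ 3) := by
    rw [le_div_iff₀ (by positivity)]
    have e1 : (C : ℝ) * (1 + κ) ^ C * (18 * u ^ 3) ≤ 18 * (C * 3 ^ C) * v := by
      calc (C : ℝ) * (1 + κ) ^ C * (18 * u ^ 3) ≤ C * (3 * u) ^ C * (18 * u ^ 3) := by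
            refine mul_le_mul_of_nonneg_right ?_ (by positivity)
            exact mul_le_mul_of_nonneg_left h2 (Nat.cast_nonneg C)
        _ = 18 * (C * 3 ^ C) * u ^ (C + 3) := by rw [mul_pow, pow_add]; ring
        _ = 18 * (C * 3 ^ C) * v := by rw [h.uv]
    have e2 : B * Real.log L * (18 * u ^ 3) ≤ 18 * (B * Real.log L) * v := by
      have h8 := h.uv3
      nlinarith
    have e3 : 18 * (1 + C * 3 ^ C + B * Real.log L) * v ≤ c * v * v :=
      mul_le_mul_of_nonneg_right h.hv hv0.le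
    have e4 : c * v * v = c * L := by rw [← h.v2]; ring
    rw [add_mul]
    nlinarith
  linarith

end NumB

variable {q : ℕ} [NeZero q] {χ : DirichletCharacter ℂ q}

theorem sum_eq {M M' : ℕ} (σ t : ℝ) :
    ∑ n ∈ Ioc M M', χ (n : ZMod q) * (n : ℂ) ^ (-(⟨σ, t⟩ : ℂ)) =
      ∑ n ∈ Ioc M M', ((((n : ℝ) ^ (-σ) : ℝ)) : ℂ) * (χ (n : ZMod q) * nt t n) := by
  refine Finset.sum_congr rfl fun n hn => ?_
  rw [Finset.mem_Ioc] at hn
  rw [term_eq (by omega) σ t, nt]
  ring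

/-- partial summation on a piece -/
theorem piece_abel {σ t R : ℝ} (hσ : 0 ≤ σ) {M M' : ℕ} (hM : 1 ≤ M) (hMM : M ≤ M')
    (hR : ∀ k, M ≤ k → k ≤ M' → ‖∑ n ∈ Ioc M k, χ (n : ZMod q) * nt t n‖ ≤ R) :
    ‖∑ n ∈ Ioc M M', χ (n : ZMod q) * (n : ℂ) ^ (-(⟨σ, t⟩ : ℂ))‖ ≤ (M : ℝ) ^ (-σ) * R := by
  rw [sum_eq]
  exact abel' (a := fun n : ℕ => (n : ℝ) ^ (-σ)) (z := fun n : ℕ => χ (n : ZMod q) * nt t n) hMM (by
      intro n hn
      have hn0 : (0 : ℝ) < n := by exact_mod_cast (by omega : 0 < n)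
      refine Real.rpow_le_rpow_of_nonpos hn0 ?_ (by linarith)
      push_cast
      linarith) (by positivity) hR

/-- one dyadic piece, `M ≤ |t|` -/
theorem piece_le1 {C B : ℕ} {c D : ℝ}
    (hZ : ∀ (N N' : ℕ) (t κ : ℝ), 2 ≤ N → N ≤ N' → N' ≤ 2 * N → 1 ≤ κ → |t| = (N : ℝ) ^ κ →
      ‖∑ n ∈ Finset.Ioc N N', χ (n : ZMod q) * nt t n‖ ≤
        q * (Real.exp (C * (1 + κ) ^ C) * (N : ℝ) ^ (1 - c / (1 + κ) ^ 2 : ℝ)))
    {L u v w t σ : ℝ} (h : NumB C B c D L u v w) (hq : (q : ℝ) ≤ L ^ B)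
    (ht : |t| ≤ 3 * Real.exp L) (hσ : 1 - w ≤ σ)
    {M M' : ℕ} (hM1 : L / u ≤ Real.log M) (hM2 : (M : ℝ) ≤ |t|) (hMM : M ≤ M')
    (hM' : M' ≤ 2 * M) :
    ‖∑ n ∈ Ioc M M', χ (n : ZMod q) * (n : ℂ) ^ (-(⟨σ, t⟩ : ℂ))‖ ≤ 1 := by
  have hL := h.L0
  have hu := h.u1
  have hL0 : 0 < L := by linarith
  have hm0 : 0 < Real.log M := lt_of_lt_of_le (by positivity) hM1
  have hM2' : 2 ≤ M := by
    by_contra hcon
    have : M = 0 ∨ M = 1 := by omega
    rcases this with rfl | rfl <;> simp at hm0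
  have hMR : (0 : ℝ) < M := by exact_mod_cast (by omega : 0 < M)
  have ht0 : 0 < |t| := hMR.trans_le hM2
  have hlt : Real.log |t| ≤ 2 * L := by
    have h1 := Real.log_le_log ht0 ht
    rw [Real.log_mul (by norm_num) (Real.exp_pos _).ne', Real.log_exp] at h1
    have h2 : Real.log 3 ≤ 3 := by
      have := Real.log_le_sub_one_of_pos (by norm_num : (0 : ℝ) < 3)
      linarith
    linarith
  have hlM : Real.log M ≤ Real.log |t| := Real.log_le_log hMR hM2
  set κ : ℝ := Real.log |t| / Real.log M with hκ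
  have hκ2 : 1 ≤ κ := by
    rw [hκ, le_div_iff₀ hm0]
    linarith
  have hκu : κ ≤ 2 * u := by
    rw [hκ, div_le_iff₀ hm0]
    have h1 : L ≤ u * Real.log M := by
      rw [div_le_iff₀ (by linarith)] at hM1
      linarith
    linarith
  have htκ : |t| = (M : ℝ) ^ κ := by
    rw [Real.rpow_def_of_pos hMR, hκ]
    have : Real.log M * (Real.log |t| / Real.log M) = Real.log |t| := by field_simp
    rw [this, Real.exp_log ht0]
  have hσ0 : 0 ≤ σ := by
    have := h.w_le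
    linarith
  refine (piece_abel hσ0 (by omega) hMM (R := q * (Real.exp (C * (1 + κ) ^ C) *
      (M : ℝ) ^ (1 - c / (1 + κ) ^ 2 : ℝ))) (by
      intro k hk hk'
      exact hZ M k t κ hM2' hk (by omega) hκ2 htκ)).trans ?_
  have hqL : (q : ℝ) ≤ Real.exp (B * Real.log L) := by
    refine hq.trans (le_of_eq ?_)
    rw [← Real.rpow_natCast, Real.rpow_def_of_pos hL0]
    congr 1
    ring
  have h3 : (M : ℝ) ^ (-σ) * (q * (Real.exp (C * (1 + κ) ^ C) *
      (M : ℝ) ^ (1 - c / (1 + κ) ^ 2 : ℝ))) = q *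
      Real.exp (C * (1 + κ) ^ C + Real.log M * (1 - σ - c / (1 + κ) ^ 2)) := by
    have : (M : ℝ) ^ (-σ) * (q * (Real.exp (C * (1 + κ) ^ C) *
      (M : ℝ) ^ (1 - c / (1 + κ) ^ 2 : ℝ))) = q * ((M : ℝ) ^ (-σ) * (Real.exp (C * (1 + κ) ^ C) *
      (M : ℝ) ^ (1 - c / (1 + κ) ^ 2 : ℝ))) := by ring
    rw [this, Real.rpow_def_of_pos hMR, Real.rpow_def_of_pos hMR, ← Real.exp_add, ← Real.exp_add]
    congr 2
    ring
  rw [h3]
  have h4 := h.piece hM1 (by linarith : 0 < κ) hκu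
  have h5 : Real.log M * (1 - σ - c / (1 + κ) ^ 2) ≤ Real.log M * (w - c / (1 + κ) ^ 2) :=
    mul_le_mul_of_nonneg_left (by linarith) hm0.le
  calc (q : ℝ) * Real.exp (C * (1 + κ) ^ C + Real.log M * (1 - σ - c / (1 + κ) ^ 2)) ≤
      Real.exp (B * Real.log L) *
        Real.exp (C * (1 + κ) ^ C + Real.log M * (1 - σ - c / (1 + κ) ^ 2)) :=
        mul_le_mul_of_nonneg_right hqL (Real.exp_pos _).le
    _ = Real.exp (B * Real.log L + (C * (1 + κ) ^ C +
          Real.log M * (1 - σ - c / (1 + κ) ^ 2))) := by rw [← Real.exp_add]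
    _ ≤ Real.exp 0 := Real.exp_le_exp.2 (by linarith)
    _ = 1 := Real.exp_zero

/-- one dyadic piece, `M > |t|` -/
theorem piece_le2 {C B : ℕ} {c D : ℝ}
    (hZ : ∀ (N N' : ℕ) (t : ℝ), 1 ≤ N → N ≤ N' → N' ≤ 2 * N → 1 ≤ |t| →
      ‖∑ n ∈ Finset.Ioc N N', χ (n : ZMod q) * nt t n‖ ≤
        q * (D * (√|t| + N / √|t|) * (1 + Real.log N)))
    {L u v w t σ : ℝ} (h : NumB C B c D L u v w) (hq : (q : ℝ) ≤ L ^ B)
    (ht : Real.exp (L / (3 * u)) ≤ |t|) (hσ : 1 - w ≤ σ)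
    {M M' : ℕ} (hM2 : |t| ≤ (M : ℝ)) (hM3 : Real.log M ≤ 4 * L) (hMM : M ≤ M')
    (hM' : M' ≤ 2 * M) :
    ‖∑ n ∈ Ioc M M', χ (n : ZMod q) * (n : ℂ) ^ (-(⟨σ, t⟩ : ℂ))‖ ≤ 1 := by
  have hL := h.L0
  have hu := h.u1
  have hD := h.D1
  have hL0 : 0 < L := by linarith
  have hu0 : 0 < u := by linarith
  have ht1 : 1 ≤ |t| := by
    refine le_trans ?_ ht
    exact Real.one_le_exp (by positivity)
  have hMR1 : (1 : ℝ) ≤ M := ht1.trans hM2
  have hMR : (0 : ℝ) < M := by linarith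
  have hM1 : 1 ≤ M := by exact_mod_cast hMR1
  have hσ0 : 0 ≤ σ := by
    have := h.w_le
    linarith
  refine (piece_abel hσ0 hM1 hMM (R := q * (D * (√|t| + M / √|t|) * (1 + Real.log M))) (by
      intro k hk hk'
      exact hZ M k t hM1 hk (by omega) ht1)).trans ?_
  have hst : 0 < √|t| := Real.sqrt_pos.2 (by linarith)
  have h1 : √|t| ≤ M / √|t| := by
    rw [le_div_iff₀ hst, Real.mul_self_sqrt (by linarith)]
    exact hM2
  have hqL : (q : ℝ) ≤ Real.exp (B * Real.log L) := by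
    refine hq.trans (le_of_eq ?_)
    rw [← Real.rpow_natCast, Real.rpow_def_of_pos hL0]
    congr 1
    ring
  have hlM : 0 ≤ Real.log M := Real.log_nonneg hMR1
  have h2 : (M : ℝ) ^ (-σ) * M ≤ Real.exp (4 * u) := by
    have e1 : (M : ℝ) ^ (-σ) * M = Real.exp (Real.log M * (1 - σ)) := by
      rw [← Real.rpow_def_of_pos hMR]
      have : 1 - σ = -σ + 1 := by ring
      rw [this, Real.rpow_add_one hMR.ne']
    rw [e1]
    refine Real.exp_le_exp.2 ?_
    have h3 : Real.log M * (1 - σ) ≤ Real.log M * w := mul_le_mul_of_nonneg_left (by linarith) hlM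
    have h4 : Real.log M * w ≤ 4 * L * w := mul_le_mul_of_nonneg_right hM3 h.w0.le
    have h5 := h.hw
    linarith
  have h3 : Real.exp (L / (6 * u)) ≤ √|t| := by
    rw [Real.le_sqrt' (Real.exp_pos _), ← Real.exp_nat_mul]
    refine le_trans (le_of_eq ?_) ht
    congr 1
    push_cast
    field_simp
    norm_num
  have h4 : 1 / √|t| ≤ Real.exp (-(L / (6 * u))) := by
    rw [Real.exp_neg, ← one_div]
    exact one_div_le_one_div_of_le (Real.exp_pos _) h3
  have h5 : Real.log (2 * D * (1 + 4 * L)) + B * Real.log L + 4 * u ≤ L / (6 * u) := by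
    have e1 := h.hP
    have e2 := h.Lu
    have e3 : 4 * u ≤ L / (12 * u) := by
      rw [le_div_iff₀ (by positivity)]
      have := h.uv2
      have := h.L48
      nlinarith
    have e4 : L / (6 * u) = L / (12 * u) + (L / u) / 12 := by field_simp; norm_num
    rw [e4]
    linarith
  have h6 : 0 < 2 * D * (1 + 4 * L) := by positivity
  calc (M : ℝ) ^ (-σ) * (q * (D * (√|t| + M / √|t|) * (1 + Real.log M)))
      ≤ (M : ℝ) ^ (-σ) * (Real.exp (B * Real.log L) * (D * (M / √|t| + M / √|t|) * (1 + 4 * L))) := by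
        gcongr
    _ = (2 * D * (1 + 4 * L)) * Real.exp (B * Real.log L) * ((M : ℝ) ^ (-σ) * M) * (1 / √|t|) := by
        ring
    _ ≤ (2 * D * (1 + 4 * L)) * Real.exp (B * Real.log L) * Real.exp (4 * u) *
        Real.exp (-(L / (6 * u))) := by
        gcongr
    _ = Real.exp (Real.log (2 * D * (1 + 4 * L)) + B * Real.log L + 4 * u - L / (6 * u)) := by
        rw [sub_eq_add_neg, Real.exp_add, Real.exp_add, Real.exp_add, Real.exp_log h6]
    _ ≤ Real.exp 0 := Real.exp_le_exp.2 (by linarith)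
    _ = 1 := Real.exp_zero

end Pool.Agent.V5helper22.CR
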