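import Pool.Agent.Q236.CR.Stm
import Pool.Agent.Y333.VK.Zf

/-!
# Project CR, job LZF, part 1: local lemmas for `L(s, χ)`
-/

set_option autoImplicit false

open Complex Filter Topology Set MeasureTheory Metric

namespace Pool.Agent.V5helper22.CR

open Pool.Agent.Y333.VK (zeta_le sum_re)

variable {q : ℕ} [NeZero q]

/-- bound for the inverse to the right of `1` -/
theorem inv_le' (χ : DirichletCharacter ℂ q) {w : ℂ} (hw : 1 < w.re) :
    ‖(DirichletCharacter.LFunction χ w)⁻¹‖ ≤ 1 + 1 / (w.re - 1) := by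
  have h1 := DirichletCharacter.LSeries.mul_mu_eq_one χ hw
  rw [← DirichletCharacter.LFunction_eq_LSeries χ hw] at h1
  rw [inv_eq_of_mul_eq_one_right h1, LSeries]
  refine le_trans ?_ (zeta_le hw)
  have hsum : Summable (fun n : ℕ => (n : ℝ) ^ (-w.re)) :=
    Real.summable_nat_rpow.mpr (by linarith)
  refine tsum_of_norm_bounded hsum.hasSum fun n => ?_
  rcases Nat.eq_zero_or_pos n with rfl | hn
  · rw [LSeries.term_zero, norm_zero]
    exact Real.rpow_nonneg (Nat.cast_nonneg 0) _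
  · rw [LSeries.term_of_ne_zero hn.ne', norm_div, Complex.norm_natCast_cpow_of_pos hn,
      Real.rpow_neg (Nat.cast_nonneg n), ← one_div]
    apply div_le_div_of_nonneg_right _ (Real.rpow_nonneg (Nat.cast_nonneg n) _)
    rw [Pi.mul_apply, norm_mul, Complex.norm_intCast]
    have h2 : |((ArithmeticFunction.moebius n : ℤ) : ℝ)| ≤ 1 := by
      exact_mod_cast ArithmeticFunction.abs_moebius_le_one
    have h3 := DirichletCharacter.norm_le_one χ (n : ZMod q)
    calc ‖χ (n : ZMod q)‖ * |((ArithmeticFunction.moebius n : ℤ) : ℝ)| ≤ 1 * 1 := by gcongr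
      _ = 1 := one_mul 1

theorem ld_eq (χ : DirichletCharacter ℂ q) {s : ℂ} (hs : 1 < s.re) :
    LSeries (fun n : ℕ => χ (n : ZMod q) * (ArithmeticFunction.vonMangoldt n : ℂ)) s =
      -(deriv (DirichletCharacter.LFunction χ) s / DirichletCharacter.LFunction χ s) := by
  have h1 := DirichletCharacter.LSeries_twist_vonMangoldt_eq χ hs
  rw [DirichletCharacter.deriv_LFunction_eq_deriv_LSeries χ hs,
    DirichletCharacter.LFunction_eq_LSeries χ hs, ← neg_div, ← h1]
  rfl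

/-- the 3-4-1 inequality -/
theorem three_four_one' (χ : DirichletCharacter ℂ q) {σ : ℝ} (hσ : 1 < σ) (t : ℝ) :
    0 ≤ 3 * (LSeries (fun n => (ArithmeticFunction.vonMangoldt n : ℂ)) (⟨σ, 0⟩ : ℂ)).re -
      4 * (deriv (DirichletCharacter.LFunction χ) ⟨σ, t⟩ /
        DirichletCharacter.LFunction χ ⟨σ, t⟩).re -
      (deriv (DirichletCharacter.LFunction (χ ^ 2)) ⟨σ, 2 * t⟩ /
        DirichletCharacter.LFunction (χ ^ 2) ⟨σ, 2 * t⟩).re := by
  have hcr : ∀ v : ℝ, 1 < (⟨σ, v⟩ : ℂ).re := fun v => hσ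
  have hs0 : LSeriesSummable (fun n => (ArithmeticFunction.vonMangoldt n : ℂ)) (⟨σ, 0⟩ : ℂ) :=
    ArithmeticFunction.LSeriesSummable_vonMangoldt (hcr 0)
  have hs1 : LSeriesSummable (fun n : ℕ => χ (n : ZMod q) * (ArithmeticFunction.vonMangoldt n : ℂ))
      (⟨σ, t⟩ : ℂ) := DirichletCharacter.LSeriesSummable_twist_vonMangoldt χ (hcr t)
  have hs2 : LSeriesSummable (fun n : ℕ => (χ ^ 2) (n : ZMod q) *
      (ArithmeticFunction.vonMangoldt n : ℂ)) (⟨σ, 2 * t⟩ : ℂ) :=
    DirichletCharacter.LSeriesSummable_twist_vonMangoldt (χ ^ 2) (hcr (2 * t))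
  have e1 := congrArg Complex.re (ld_eq χ (hcr t))
  have e2 := congrArg Complex.re (ld_eq (χ ^ 2) (hcr (2 * t)))
  rw [neg_re] at e1 e2
  have e3 : (deriv (DirichletCharacter.LFunction χ) ⟨σ, t⟩ /
        DirichletCharacter.LFunction χ ⟨σ, t⟩).re =
        -(LSeries (fun n : ℕ => χ (n : ZMod q) * (ArithmeticFunction.vonMangoldt n : ℂ))
          (⟨σ, t⟩ : ℂ)).re := by linarith
  have e4 : (deriv (DirichletCharacter.LFunction (χ ^ 2)) ⟨σ, 2 * t⟩ /
        DirichletCharacter.LFunction (χ ^ 2) ⟨σ, 2 * t⟩).re =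
        -(LSeries (fun n : ℕ => (χ ^ 2) (n : ZMod q) * (ArithmeticFunction.vonMangoldt n : ℂ))
          (⟨σ, 2 * t⟩ : ℂ)).re := by linarith
  rw [e3, e4, mul_neg, sub_neg_eq_add, sub_neg_eq_add]
  unfold LSeries
  rw [Complex.re_tsum hs0, Complex.re_tsum hs1, Complex.re_tsum hs2]
  have h0 := (Complex.reCLM.summable hs0)
  have h1 := (Complex.reCLM.summable hs1)
  have h2 := (Complex.reCLM.summable hs2)
  simp only [Complex.reCLM_apply] at h0 h1 h2
  rw [← tsum_mul_left, ← tsum_mul_left, ← Summable.tsum_add (h0.mul_left 3) (h1.mul_left 4),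
    ← Summable.tsum_add ((h0.mul_left 3).add (h1.mul_left 4)) h2]
  refine tsum_nonneg fun n => ?_
  rcases eq_or_ne n 0 with rfl | hn
  · simp
  have hn0 : (n : ℂ) ≠ 0 := by exact_mod_cast hn
  have hnr : (0 : ℝ) < n := by exact_mod_cast Nat.pos_of_ne_zero hn
  set w : ℂ := cexp (-(((t * Real.log n : ℝ) : ℂ) * I)) with hw
  have key : ∀ (k : ℕ) (x : ℂ), LSeries.term (fun n => x * (ArithmeticFunction.vonMangoldt n : ℂ))
      (⟨σ, k * t⟩ : ℂ) n = ((ArithmeticFunction.vonMangoldt n / (n : ℝ) ^ σ : ℝ) : ℂ) *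
        (x * w ^ k) := by
    intro k x
    rw [LSeries.term_of_ne_zero hn]
    have e : (⟨σ, k * t⟩ : ℂ) = (σ : ℂ) + ((k * t : ℝ) : ℂ) * I := by
      apply Complex.ext <;> simp
    rw [e, Complex.cpow_add _ _ hn0]
    have e2 : (n : ℂ) ^ (((k * t : ℝ) : ℂ) * I) = (w ^ k)⁻¹ := by
      rw [hw, ← Complex.exp_nat_mul, ← Complex.exp_neg, Complex.cpow_def_of_ne_zero hn0,
        ← Complex.natCast_log]
      congr 1
      push_cast
      ring
    rw [e2]
    have e3 : (n : ℂ) ^ (σ : ℂ) = (((n : ℝ) ^ σ : ℝ) : ℂ) := by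
      rw [Complex.ofReal_cpow hnr.le]
      simp
    rw [e3]
    push_cast
    rw [← div_div, div_inv_eq_mul]
    ring
  have k0 : LSeries.term (fun n => (ArithmeticFunction.vonMangoldt n : ℂ)) (⟨σ, 0⟩ : ℂ) n =
      ((ArithmeticFunction.vonMangoldt n / (n : ℝ) ^ σ : ℝ) : ℂ) := by
    have := key 0 1
    simpa using this
  have k1 : LSeries.term (fun n : ℕ => χ (n : ZMod q) * (ArithmeticFunction.vonMangoldt n : ℂ))
      (⟨σ, t⟩ : ℂ) n = ((ArithmeticFunction.vonMangoldt n / (n : ℝ) ^ σ : ℝ) : ℂ) *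
        (χ (n : ZMod q) * w) := by
    have := key 1 (χ (n : ZMod q))
    rw [LSeries.term_of_ne_zero hn] at this ⊢
    simpa using this
  have k2 : LSeries.term (fun n : ℕ => (χ ^ 2) (n : ZMod q) *
      (ArithmeticFunction.vonMangoldt n : ℂ))
      (⟨σ, 2 * t⟩ : ℂ) n = ((ArithmeticFunction.vonMangoldt n / (n : ℝ) ^ σ : ℝ) : ℂ) *
        (χ (n : ZMod q) * w) ^ 2 := by
    have := key 2 ((χ ^ 2) (n : ZMod q))
    rw [LSeries.term_of_ne_zero hn] at this ⊢
    rw [MulChar.pow_apply' χ (by norm_num)] at this ⊢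
    rw [mul_pow]
    simpa using this
  rw [k0, k1, k2]
  set z : ℂ := χ (n : ZMod q) * w with hz
  set A : ℝ := ArithmeticFunction.vonMangoldt n / (n : ℝ) ^ σ with hA
  have hA0 : 0 ≤ A := div_nonneg ArithmeticFunction.vonMangoldt_nonneg (by positivity)
  have hz1 : z.re ^ 2 + z.im ^ 2 ≤ 1 := by
    have h3 : ‖w‖ = 1 := by
      rw [hw, ← neg_mul, ← Complex.ofReal_neg, Complex.norm_exp_ofReal_mul_I]
    have h5 : ‖z‖ ≤ 1 := by
      rw [hz, norm_mul, h3, mul_one]
      exact DirichletCharacter.norm_le_one χ _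
    have h4 := Complex.sq_norm z
    rw [Complex.normSq_apply] at h4
    have h6 : ‖z‖ ^ 2 ≤ 1 := by
      have := norm_nonneg z
      nlinarith
    nlinarith
  have e4 : ((A : ℂ)).re = A := Complex.ofReal_re A
  have e5 : ((A : ℂ) * z).re = A * z.re := by simp
  have e6 : ((A : ℂ) * z ^ 2).re = A * (z.re ^ 2 - z.im ^ 2) := by
    rw [Complex.re_ofReal_mul, sq, Complex.mul_re]
    ring
  rw [e4, e5, e6]
  have e7 : 0 ≤ A * (1 - (z.re ^ 2 + z.im ^ 2)) := mul_nonneg hA0 (by linarith)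
  have e8 : 0 ≤ A * (1 + z.re) ^ 2 := by positivity
  nlinarith

/-- the upper bound, all characters modulo `q` -/
def UBq (q : ℕ) [NeZero q] (w M T : ℝ) : Prop := ∀ (χ : DirichletCharacter ℂ q) (s : ℂ),
  1 ≤ |s.im| → |s.im| ≤ 3 * T → 1 - 32 * w ≤ s.re → s.re ≤ 3 →
  ‖DirichletCharacter.LFunction χ s‖ ≤ M

theorem L_ne {χ : DirichletCharacter ℂ q} {s : ℂ} (hs : 1 ≤ s.re) (h1 : s ≠ 1) :
    DirichletCharacter.LFunction χ s ≠ 0 :=
  DirichletCharacter.LFunction_ne_zero_of_one_le_re χ (Or.inr h1) hs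

/-- the local lemma -/
theorem loc' {w M T : ℝ} (hw0 : 0 < w) (hw1 : w ≤ 1 / 32) (hM1 : 1 ≤ M) (hT : 3 ≤ T)
    (h : UBq q w M T) (χ : DirichletCharacter ℂ q)
    {τ η : ℝ} (hτ1 : 19 / 10 ≤ |τ|) (hτ2 : |τ| ≤ 2 * T + 2) (hη0 : 0 < η) (hη : η ≤ w) :
    (-(12 * (Real.log (2 * M / η) + 1) / w) ≤
      (deriv (DirichletCharacter.LFunction χ) ⟨1 + η, τ⟩ /
        DirichletCharacter.LFunction χ ⟨1 + η, τ⟩).re) ∧
    (∀ ρ ∈ closedBall (⟨1 + η, τ⟩ : ℂ) (2 * w), DirichletCharacter.LFunction χ ρ = 0 →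
      (1 / ((⟨1 + η, τ⟩ : ℂ) - ρ)).re -
        12 * (Real.log (2 * M / η) + 1) / w ≤
        (deriv (DirichletCharacter.LFunction χ) ⟨1 + η, τ⟩ /
          DirichletCharacter.LFunction χ ⟨1 + η, τ⟩).re) ∧
    (∀ z ∈ closedBall (⟨1 + η, τ⟩ : ℂ) w, ∀ d : ℝ, 0 < d →
      (∀ ρ ∈ closedBall (⟨1 + η, τ⟩ : ℂ) (2 * w), DirichletCharacter.LFunction χ ρ = 0 →
        d ≤ ‖z - ρ‖) →
      DirichletCharacter.LFunction χ z ≠ 0 ∧ ‖deriv (DirichletCharacter.LFunction χ) z /
        DirichletCharacter.LFunction χ z‖ ≤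
        Real.log (2 * M / η) * (3 / 2) / d +
          12 * (Real.log (2 * M / η) + 1) / w) := by
  set c : ℂ := ⟨1 + η, τ⟩ with hc
  have hcr : c.re = 1 + η := rfl
  have hci : c.im = τ := rfl
  have him : ∀ z ∈ closedBall c (4 * w), 1 ≤ |z.im| ∧ |z.im| ≤ 3 * T := by
    intro z hz
    rw [mem_closedBall, dist_eq_norm] at hz
    have h2 := (abs_im_le_norm (z - c)).trans hz
    rw [sub_im, hci] at h2
    have h3 : |τ| - |z.im| ≤ |z.im - τ| := by
      rw [abs_sub_comm]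
      exact abs_sub_abs_le_abs_sub _ _
    have h4 : |z.im| - |τ| ≤ |z.im - τ| := abs_sub_abs_le_abs_sub _ _
    constructor <;> linarith
  have hball : ∀ z ∈ closedBall c (4 * w), ‖DirichletCharacter.LFunction χ z‖ ≤ M := by
    intro z hz
    obtain ⟨i1, i2⟩ := him z hz
    rw [mem_closedBall, dist_eq_norm] at hz
    have h1 := (abs_re_le_norm (z - c)).trans hz
    rw [sub_re, hcr, abs_le] at h1
    exact h χ z i1 i2 (by linarith [h1.1]) (by linarith [h1.2])
  have hne : ∀ z ∈ closedBall c (4 * w), z ≠ 1 := by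
    intro z hz he
    obtain ⟨i1, i2⟩ := him z hz
    rw [he] at i1
    simp at i1
    linarith
  have han : AnalyticOnNhd ℂ (DirichletCharacter.LFunction χ) (closedBall c (4 * w)) := by
    have h1 : DifferentiableOn ℂ (DirichletCharacter.LFunction χ) {1}ᶜ := fun z hz =>
      (DirichletCharacter.differentiableAt_LFunction χ z (Or.inl hz)).differentiableWithinAt
    exact (h1.analyticOnNhd isOpen_compl_singleton).mono fun z hz => hne z hz
  have hcm : c ∈ closedBall c (4 * w) := mem_closedBall_self (by linarith)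
  have hcb := hball c hcm
  have hcre : 1 < c.re := by rw [hcr]; linarith
  have hc0 : DirichletCharacter.LFunction χ c ≠ 0 := L_ne hcre.le (hne c hcm)
  have hcpos : 0 < ‖DirichletCharacter.LFunction χ c‖ := norm_pos_iff.2 hc0
  have hinv : ‖DirichletCharacter.LFunction χ c‖⁻¹ ≤ 2 / η := by
    have h1 := inv_le' χ hcre
    rw [norm_inv] at h1
    have h2 : c.re - 1 = η := by rw [hcr]; ring
    rw [h2] at h1
    refine h1.trans ?_
    have h3 : 1 ≤ 1 / η := by rw [le_div_iff₀ hη0]; linarith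
    have h4 : 2 / η = 1 / η + 1 / η := by ring
    linarith
  have hM0 : 0 < M := by linarith
  have hlog : Real.log (M / ‖DirichletCharacter.LFunction χ c‖) ≤ Real.log (2 * M / η) := by
    apply Real.log_le_log (by positivity)
    calc M / ‖DirichletCharacter.LFunction χ c‖ = M * ‖DirichletCharacter.LFunction χ c‖⁻¹ :=
          div_eq_mul_inv _ _
      _ ≤ M * (2 / η) := mul_le_mul_of_nonneg_left hinv (by positivity)
      _ = 2 * M / η := by ring
  have hlog0 : 0 ≤ Real.log (M / ‖DirichletCharacter.LFunction χ c‖) :=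
    Real.log_nonneg (by rw [le_div_iff₀ hcpos]; linarith)
  have hq : Real.log (2 * w / (4 * w - 2 * w)) = 0 := by
    have h1 : 4 * w - 2 * w = 2 * w := by ring
    rw [h1, div_self (by positivity), Real.log_one]
  have herr : 2 * (Real.log (M / ‖DirichletCharacter.LFunction χ c‖) +
      Real.log (M / ‖DirichletCharacter.LFunction χ c‖) / Real.log (4 * w / (2 * w)) *
      Real.log (2 * w / (4 * w - 2 * w)) + 1) * (3 / 2 * w) / (2 * w - 3 / 2 * w) /
      (3 / 2 * w - w) ≤ 12 * (Real.log (2 * M / η) + 1) / w := by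
    rw [hq]
    have e1 : 2 * w - 3 / 2 * w = w / 2 := by ring
    have e2 : 3 / 2 * w - w = w / 2 := by ring
    rw [e1, e2, mul_zero, add_zero]
    have e3 : 2 * (Real.log (M / ‖DirichletCharacter.LFunction χ c‖) + 1) * (3 / 2 * w) /
        (w / 2) / (w / 2) =
        12 * (Real.log (M / ‖DirichletCharacter.LFunction χ c‖) + 1) / w := by
      field_simp
      ring
    rw [e3]
    gcongr
  have hzre : ∀ ρ : ℂ, ρ ∈ closedBall c (2 * w) → DirichletCharacter.LFunction χ ρ = 0 →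
      ρ.re < 1 := by
    intro ρ hρb hρ
    by_contra hcon
    exact L_ne (not_lt.1 hcon) (hne ρ (closedBall_subset_closedBall (by linarith) hρb)) hρ
  obtain ⟨s, hs1, hs2, hs3⟩ := Pool.Agent.W66.landau_re (f := DirichletCharacter.LFunction χ)
    (c := c) (r := 2 * w)
    (r1 := 3 / 2 * w) (r2 := w) (R := 4 * w) (M := M) hw0 (by linarith) (by linarith)
    (by linarith) (by linarith) hM1 hcb han hc0 hball
  have hcne : ∀ ρ ∈ s, c ≠ ρ := by
    intro ρ hρ he
    have h1 := hzre ρ (hs1 ρ hρ).1 (hs1 ρ hρ).2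
    rw [← he] at h1
    linarith
  have h3 := (hs3 c (mem_closedBall_self hw0.le) hcne).trans herr
  obtain ⟨j1, j2⟩ := sum_re hcre s fun ρ hρ => hzre ρ (hs1 ρ hρ).1 (hs1 ρ hρ).2
  have h4 := (Complex.abs_re_le_norm _).trans h3
  rw [sub_re, abs_le] at h4
  refine ⟨by linarith [h4.1], fun ρ hρ hρ0 => ?_, fun z hz d hd hdist => ?_⟩
  · have := j2 ρ (hs2 ρ hρ hρ0)
    linarith [h4.1]
  · obtain ⟨h5, h6⟩ := H370.Loc.landau (f := DirichletCharacter.LFunction χ) (c := c) (r := 2 * w)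
      (r1 := 3 / 2 * w) (r2 := w) (R := 4 * w) (M := M) hw0 (by linarith) (by linarith)
      (by linarith) (by linarith) hM1 hcb han hc0 hball z hz d hd hdist
    refine ⟨h5, h6.trans (add_le_add ?_ herr)⟩
    have e1 : 4 * w / (2 * w) = 2 := by
      field_simp
      norm_num
    rw [e1]
    have hl2 : 2 / 3 ≤ Real.log 2 := by
      have := Real.log_two_gt_d9
      linarith
    have e2 : Real.log (M / ‖DirichletCharacter.LFunction χ c‖) / Real.log 2 ≤
        Real.log (2 * M / η) * (3 / 2) := by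
      rw [div_le_iff₀ (by linarith)]
      have h7 : 0 ≤ Real.log (2 * M / η) := hlog0.trans hlog
      nlinarith
    gcongr

end Pool.Agent.V5helper22.CR
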